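import Pool.Agent.TH658.Geo.Lin
import Pool.Agent.NPC.Dec

/-!
# The reduction on adjacency matrices, and its polynomial time
-/

set_option autoImplicit false

namespace Pool.Agent.TH658.Geo

open Pool.Agent.NPC

/-- Square 0-1 matrices, as lists of rows. -/
abbrev Mat := List (List Bool)

/-- The entry `(u, w)`. -/
def ent (M : Mat) (u w : ℕ) : Bool := (M.getD u []).getD w false

/-- `M` is the adjacency matrix of a (simple, undirected) graph. -/
def IsAdj (M : Mat) : Prop :=
  (∀ r ∈ M, r.length = M.length) ∧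
    (∀ u ∈ List.range M.length, ∀ w ∈ List.range M.length, ent M u w = ent M w u) ∧
    ∀ u ∈ List.range M.length, ent M u u = false

/-- The graph of an adjacency matrix. -/
def toG (M : Mat) : SimpleGraph (Fin M.length) := gr M.length (ent M)

/-! ### Lists of vertices -/

instance decEqLn : DecidableEq Ln := inferInstance

instance decEqVx : DecidableEq (Pt × Option Ln) := fun a b =>
  decidable_of_iff (a.1 = b.1 ∧ a.2 = b.2) ⟨fun h => Prod.ext h.1 h.2, fun h => by rw [h]; simp⟩

instance (n : ℕ) (e : ℕ → ℕ → Bool) (x b : Pt) : Decidable (bigI n e x b) := by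
  unfold bigI; infer_instance

instance (x y : Pt) : Decidable (ltP x y) := by unfold ltP; infer_instance

instance (a b : Pt × Option Ln) : Decidable (adjR a b) := by unfold adjR; infer_instance

/-- the list of points -/
def pts (M : Mat) : List Pt :=
  ((List.range M.length).flatMap fun u => (List.range M.length).flatMap fun w =>
    if u = w then [(u, u, 0), (u, u, 1), (u, u, 2), (u, u, 3), (u, u, 4)]
    else if ent M u w = true then [(u, w, 0)] else []) ++
  [(M.length, M.length, 0), (M.length, M.length, 1), (M.length, M.length, 2)]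

/-- the list of the names of big lines -/
def bigs (M : Mat) : List Pt :=
  (List.range M.length).flatMap fun u => (List.range M.length).flatMap fun w =>
    [(u, w, 0), (u, w, 1)]

/-- two points are on a big line -/
def bigB (M : Mat) (y z : Pt) : Bool :=
  (bigs M).any fun b => decide (bigI M.length (ent M) y b ∧ bigI M.length (ent M) z b)

/-- the list of the small lines -/
def smalls (M : Mat) : List (Pt × Pt) :=
  (pts M).flatMap fun y => (pts M).flatMap fun z =>
    if ltP y z ∧ bigB M y z = false then [(y, z)] else []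

/-- the list of the vertices -/
def vs (M : Mat) : List (Pt × Option Ln) :=
  ((pts M).map (fun x => (x, none)) ++
    ((bigs M).flatMap (fun b => (pts M).flatMap fun x =>
      if bigI M.length (ent M) x b then [(x, some (Sum.inl b))] else []) ++
    (smalls M).flatMap (fun q : Pt × Pt => [(q.1, some (Sum.inr q)), (q.2, some (Sum.inr q))]))).dedup

/-- the matrix of a relation on a list -/
def matOf {α : Type} (l : List α) (r : α → α → Bool) : Mat := l.map fun a => l.map fun b => r a b

/-- the reduction -/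
def R (M : Mat) : Mat := matOf (vs M) fun a b => decide (adjR a b)

/-! ### Membership -/

theorem mem_pts {M : Mat} {x : Pt} : x ∈ pts M ↔ KK M.length (ent M) x := by
  obtain ⟨a, c, i⟩ := x
  simp only [pts, KK, List.mem_append, List.mem_flatMap, List.mem_range]
  constructor
  · rintro (⟨u, hu, w, hw, h⟩ | h)
    · split_ifs at h with h1 h2
      · simp only [List.mem_cons, Prod.mk.injEq, List.not_mem_nil, or_false] at h
        left
        omega
      · simp only [List.mem_cons, Prod.mk.injEq, List.not_mem_nil, or_false] at h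
        obtain ⟨rfl, rfl, rfl⟩ := h
        exact Or.inr (Or.inl ⟨h1, hu, hw, h2, rfl⟩)
      · simp at h
    · simp only [List.mem_cons, Prod.mk.injEq, List.not_mem_nil, or_false] at h
      omega
  · rintro (⟨rfl, h1, h2⟩ | ⟨h1, h2, h3, h4, rfl⟩ | ⟨h1, h2, h3⟩)
    · refine Or.inl ⟨a, h1, a, h1, ?_⟩
      rw [if_pos rfl]
      simp only [List.mem_cons, Prod.mk.injEq, List.not_mem_nil, or_false, true_and]
      omega
    · refine Or.inl ⟨a, h2, c, h3, ?_⟩
      rw [if_neg h1, if_pos h4]
      simp
    · right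
      simp only [List.mem_cons, Prod.mk.injEq, List.not_mem_nil, or_false]
      omega

theorem mem_bigs {M : Mat} {x b : Pt} (h : bigI M.length (ent M) x b) : b ∈ bigs M := by
  obtain ⟨u, w, k⟩ := b
  simp only [bigI] at h
  simp only [bigs, List.mem_flatMap, List.mem_range, List.mem_cons, Prod.mk.injEq,
    List.not_mem_nil, or_false]
  rcases h with h | h | h
  · exact ⟨u, by omega, w, by omega, by omega⟩
  · exact ⟨u, by omega, w, by omega, by omega⟩
  · exact ⟨u, by omega, w, by omega, by omega⟩

theorem bigB_iff {M : Mat} {y z : Pt} : bigB M y z = true ↔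
    ∃ b, bigI M.length (ent M) y b ∧ bigI M.length (ent M) z b := by
  simp only [bigB, List.any_eq_true, decide_eq_true_eq]
  constructor
  · rintro ⟨b, -, h⟩
    exact ⟨b, h⟩
  · rintro ⟨b, h⟩
    exact ⟨b, mem_bigs h.1, h⟩

theorem mem_smalls {M : Mat} {q : Pt × Pt} : q ∈ smalls M ↔
    KK M.length (ent M) q.1 ∧ KK M.length (ent M) q.2 ∧ ltP q.1 q.2 ∧
      ¬ ∃ b, bigI M.length (ent M) q.1 b ∧ bigI M.length (ent M) q.2 b := by
  obtain ⟨y, z⟩ := q
  simp only [smalls, List.mem_flatMap, ← mem_pts, ← bigB_iff]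
  constructor
  · rintro ⟨y', hy, z', hz, h⟩
    split_ifs at h with h1
    · simp only [List.mem_cons, Prod.mk.injEq, List.not_mem_nil, or_false] at h
      obtain ⟨rfl, rfl⟩ := h
      exact ⟨hy, hz, h1.1, by simp [h1.2]⟩
    · simp at h
  · rintro ⟨h1, h2, h3, h4⟩
    refine ⟨y, h1, z, h2, ?_⟩
    rw [if_pos ⟨h3, by simpa using h4⟩]
    simp

theorem mem_vs {M : Mat} {a : Pt × Option Ln} : a ∈ vs M ↔
    KK M.length (ent M) a.1 ∧ ∀ l, a.2 = some l → II M.length (ent M) a.1 l := by
  obtain ⟨x, o⟩ := a
  simp only [vs, List.mem_dedup, List.mem_append, List.mem_map, List.mem_flatMap]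
  constructor
  · rintro (⟨y, hy, h⟩ | ⟨b, -, y, hy, h⟩ | ⟨q, hq, h⟩)
    · simp only [Prod.mk.injEq] at h
      obtain ⟨rfl, rfl⟩ := h
      exact ⟨mem_pts.1 hy, by simp⟩
    · split_ifs at h with h1
      · simp only [List.mem_cons, Prod.mk.injEq, List.not_mem_nil, or_false] at h
        obtain ⟨rfl, rfl⟩ := h
        refine ⟨mem_pts.1 hy, ?_⟩
        intro l hl
        simp only [Option.some.injEq] at hl
        subst hl
        exact h1
      · simp at h
    · obtain ⟨y, z⟩ := q
      obtain ⟨h1, h2, h3, h4⟩ := mem_smalls.1 hq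
      simp only [List.mem_cons, Prod.mk.injEq, List.not_mem_nil, or_false] at h
      rcases h with ⟨rfl, rfl⟩ | ⟨rfl, rfl⟩
      · refine ⟨h1, ?_⟩
        intro l hl
        simp only [Option.some.injEq] at hl
        subst hl
        exact ⟨Or.inl rfl, h1, h2, h3, h4⟩
      · refine ⟨h2, ?_⟩
        intro l hl
        simp only [Option.some.injEq] at hl
        subst hl
        exact ⟨Or.inr rfl, h1, h2, h3, h4⟩
  · rintro ⟨h1, h2⟩
    rcases o with _ | l
    · exact Or.inl ⟨x, mem_pts.2 h1, rfl⟩
    · have h3 := h2 l rfl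
      rcases l with b | ⟨y, z⟩
      · refine Or.inr (Or.inl ⟨b, mem_bigs h3, x, mem_pts.2 h1, ?_⟩)
        have h4 : bigI M.length (ent M) x b := h3
        rw [if_pos h4]
        simp
      · obtain ⟨h4, h5, h6, h7, h8⟩ := h3
        refine Or.inr (Or.inr ⟨(y, z), mem_smalls.2 ⟨h5, h6, h7, h8⟩, ?_⟩)
        rcases h4 with rfl | rfl <;> simp

/-! ### The graph of the matrix -/

theorem matOf_length {α : Type} (l : List α) (r : α → α → Bool) : (matOf l r).length = l.length := by
  simp [matOf]

theorem ent_matOf {α : Type} (l : List α) (r : α → α → Bool) (i j : ℕ) (hi : i < l.length)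
    (hj : j < l.length) : ent (matOf l r) i j = r l[i] l[j] := by
  simp [ent, matOf, List.getD_eq_getElem?_getD, hi, hj]

theorem isAdj_matOf {α : Type} (l : List α) (r : α → α → Bool) (hs : ∀ a b, r a b = r b a)
    (hi : ∀ a, r a a = false) : IsAdj (matOf l r) := by
  refine ⟨?_, ?_, ?_⟩
  · intro x hx
    rw [matOf_length]
    simp only [matOf, List.mem_map] at hx
    obtain ⟨a, -, rfl⟩ := hx
    simp
  · intro u hu w hw
    rw [matOf_length, List.mem_range] at hu hw
    rw [ent_matOf _ _ _ _ hu hw, ent_matOf _ _ _ _ hw hu, hs]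
  · intro u hu
    rw [matOf_length, List.mem_range] at hu
    rw [ent_matOf _ _ _ _ hu hu, hi]

theorem isAdj_R (M : Mat) : IsAdj (R M) := by
  refine isAdj_matOf _ _ (fun a b => ?_) (fun a => ?_)
  · exact decide_eq_decide.2 ⟨adjR_symm, adjR_symm⟩
  · simpa using adjR_irrefl

theorem symm_of_isAdj {M : Mat} (h : IsAdj M) :
    ∀ u w, u < M.length → w < M.length → ent M u w = ent M w u := fun u w hu hw =>
  h.2.1 u (List.mem_range.2 hu) w (List.mem_range.2 hw)

theorem R_iso (M : Mat) : Nonempty (toG (R M) ≃g GG M.length (ent M)) := by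
  have hnd : (vs M).Nodup := List.nodup_dedup _
  have hlen : (R M).length = (vs M).length := matOf_length _ _
  have hmem : ∀ a, a ∈ vs M ↔ (KK M.length (ent M) a.1 ∧ ∀ l, a.2 = some l →
      II M.length (ent M) a.1 l) := fun a => mem_vs
  let φ : Fin (R M).length ≃ Vx (KK M.length (ent M)) (II M.length (ent M)) :=
    (finCongr hlen).trans ((hnd.getEquiv (vs M)).trans (Equiv.subtypeEquivRight hmem))
  have hφ : ∀ i, (φ i).1 = (vs M)[(i : ℕ)]'(hlen ▸ i.2) := fun i => rfl
  refine ⟨⟨φ, ?_⟩⟩
  intro i j
  change adjR (φ i).1 (φ j).1 ↔ (gr (R M).length (ent (R M))).Adj i j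
  have hi : (i : ℕ) < (vs M).length := hlen ▸ i.2
  have hj : (j : ℕ) < (vs M).length := hlen ▸ j.2
  rw [gr_adj, hφ, hφ]
  unfold R
  rw [ent_matOf _ _ _ _ hi hj, ent_matOf _ _ _ _ hj hi]
  simp only [decide_eq_true_eq]
  constructor
  · intro hadj
    refine ⟨?_, hadj, adjR_symm hadj⟩
    rintro rfl
    exact adjR_irrefl hadj
  · exact fun hadj => hadj.2.1

end Pool.Agent.TH658.Geo
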