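import Pool.Agent.TH658.Geo.Dist

/-!
# Two-connectedness, isomorphisms, and reconstruction
-/

set_option autoImplicit false

namespace Pool.Agent.TH658.Geo

section Conn

variable {P L : Type} {K : P → Prop} {I : P → L → Prop}

/-- the vertex of a point -/
def pv {x : P} (hx : K x) : Vx K I := ⟨(x, none), hx, by simp⟩

/-- the vertex of a flag -/
def fv {x : P} {l : L} (hx : K x) (h : I x l) : Vx K I := ⟨(x, some l), hx, by
  intro l' h'
  simp only [Option.some.injEq] at h'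
  exact h' ▸ h⟩

theorem adj_pf {x : P} {l : L} (hx : K x) (h : I x l) :
    (linGraph K I).Adj (pv hx) (fv hx h) := Or.inl ⟨rfl, by simp [pv, fv], Or.inl rfl⟩

theorem adj_ff {x y : P} {l : L} (hx : K x) (h : I x l) (hy : K y) (h' : I y l) (hne : x ≠ y) :
    (linGraph K I).Adj (fv hx h) (fv hy h') := Or.inr ⟨hne, rfl, by simp [fv]⟩

variable (hI : ∀ x l, I x l → K x) (hex : ∀ x y, K x → K y → x ≠ y → ∃ l, I x l ∧ I y l)
  (h2 : ∀ x l, I x l → ∃ y, y ≠ x ∧ I y l) (hoff : ∀ l, ∃ w, K w ∧ ¬ I w l)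
  (hK2 : ∀ x, ∃ y, K y ∧ y ≠ x)

theorem pv_ne {x : P} (hx : K x) {z : Vx K I} (h : z.1 ≠ (x, none)) :
    (pv hx : Vx K I) ≠ z := by
  rintro rfl
  exact h rfl

theorem fv_ne {x : P} {l : L} (hx : K x) (h : I x l) {z : Vx K I} (hz : z.1 ≠ (x, some l)) :
    (fv hx h : Vx K I) ≠ z := by
  rintro rfl
  exact hz rfl

include hI hex h2 hoff hK2 in
theorem linGraph_twoConnected (hc : (linGraph K I).Connected) :
    TwoConnected (linGraph K I) := by
  refine ⟨hc, fun z => ?_⟩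
  -- reachability of two points through a line
  have hline : ∀ {x y : P} {l : L} (hx : K x) (hy : K y), x ≠ y → ∀ (hxl : I x l) (hyl : I y l),
      ∀ (h1 : z.1 ≠ (x, none)) (h2 : z.1 ≠ (y, none)), z.1 ≠ (x, some l) → z.1 ≠ (y, some l) →
      ((linGraph K I).induce {z}ᶜ).Reachable ⟨pv hx, pv_ne hx h1⟩ ⟨pv hy, pv_ne hy h2⟩ := by
    intro x y l hx hy hxy hxl hyl h1 h2 h3 h4
    have e1 : ((linGraph K I).induce {z}ᶜ).Adj ⟨pv hx, pv_ne hx h1⟩ ⟨fv hx hxl, fv_ne hx hxl h3⟩ :=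
      adj_pf hx hxl
    have e2 : ((linGraph K I).induce {z}ᶜ).Adj ⟨fv hx hxl, fv_ne hx hxl h3⟩
        ⟨fv hy hyl, fv_ne hy hyl h4⟩ := adj_ff hx hxl hy hyl hxy
    have e3 : ((linGraph K I).induce {z}ᶜ).Adj ⟨pv hy, pv_ne hy h2⟩ ⟨fv hy hyl, fv_ne hy hyl h4⟩ :=
      adj_pf hy hyl
    exact e1.reachable.trans (e2.reachable.trans e3.symm.reachable)
  have hpts : ∀ {x y : P} (hx : K x) (hy : K y) (h1 : z.1 ≠ (x, none)) (h2 : z.1 ≠ (y, none)),
      ((linGraph K I).induce {z}ᶜ).Reachable ⟨pv hx, pv_ne hx h1⟩ ⟨pv hy, pv_ne hy h2⟩ := by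
    intro x y hx hy h1 h2
    by_cases hxy : x = y
    · subst hxy
      exact SimpleGraph.Reachable.refl _
    obtain ⟨l, hxl, hyl⟩ := hex x y hx hy hxy
    by_cases h3 : z.1 = (x, some l) ∨ z.1 = (y, some l)
    · have hzl : z.1.2 = some l := by
        rcases h3 with h3 | h3 <;> rw [h3]
      obtain ⟨w, hw, hwl⟩ := hoff l
      have hwx : x ≠ w := by rintro rfl; exact hwl hxl
      have hwy : w ≠ y := by rintro rfl; exact hwl hyl
      obtain ⟨m, hxm, hwm⟩ := hex x w hx hw hwx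
      obtain ⟨m', hwm', hym'⟩ := hex w y hw hy hwy
      have hml : m ≠ l := by rintro rfl; exact hwl hwm
      have hml' : m' ≠ l := by rintro rfl; exact hwl hwm'
      have n1 : ∀ a, z.1 ≠ (a, none) := by
        intro a e
        rw [e] at hzl
        simp at hzl
      have n2 : ∀ a, z.1 ≠ (a, some m) := by
        intro a e
        rw [e] at hzl
        simp only [Option.some.injEq] at hzl
        exact hml hzl
      have n3 : ∀ a, z.1 ≠ (a, some m') := by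
        intro a e
        rw [e] at hzl
        simp only [Option.some.injEq] at hzl
        exact hml' hzl
      exact (hline hx hw hwx hxm hwm h1 (n1 w) (n2 _) (n2 _)).trans
        (hline hw hy hwy hwm' hym' (n1 w) h2 (n3 _) (n3 _))
    · push Not at h3
      exact hline hx hy hxy hxl hyl h1 h2 h3.1 h3.2
  -- a root
  obtain ⟨r, hr, hrz⟩ := hK2 z.1.1
  have hr' : z.1 ≠ (r, none) := by
    intro e
    apply hrz
    rw [e]
  rw [SimpleGraph.connected_iff_exists_forall_reachable]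
  refine ⟨⟨pv hr, pv_ne hr hr'⟩, ?_⟩
  rintro ⟨⟨⟨x, o⟩, hx, hxo⟩, hne'⟩
  have hz : z.1 ≠ (x, o) := fun e => hne' (Subtype.ext e.symm)
  rcases o with _ | l
  · exact hpts hr hx hr' hz
  · have hxl := hxo l rfl
    by_cases hzx : z.1 = (x, none)
    · obtain ⟨y, hyx, hyl⟩ := h2 x l hxl
      have hy := hI _ _ hyl
      have n1 : z.1 ≠ (y, none) := by
        rw [hzx]
        intro e
        simp only [Prod.mk.injEq, and_true] at e
        exact hyx e.symm
      have n2 : ∀ a, z.1 ≠ (a, some l) := by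
        rw [hzx]
        intro a e
        simp at e
      refine (hpts hr hy hr' n1).trans ?_
      have e1 : ((linGraph K I).induce {z}ᶜ).Adj ⟨pv hy, pv_ne hy n1⟩
        ⟨fv hy hyl, fv_ne hy hyl (n2 y)⟩ := adj_pf hy hyl
      have e2 : ((linGraph K I).induce {z}ᶜ).Adj ⟨fv hy hyl, fv_ne hy hyl (n2 y)⟩
        ⟨fv hx hxl, fv_ne hx hxl (n2 x)⟩ := adj_ff hy hyl hx hxl hyx
      exact e1.reachable.trans e2.reachable
    · refine (hpts hr hx hr' hzx).trans ?_
      have e1 : ((linGraph K I).induce {z}ᶜ).Adj ⟨pv hx, pv_ne hx hzx⟩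
        ⟨fv hx hxl, fv_ne hx hxl hz⟩ := adj_pf hx hxl
      exact e1.reachable

end Conn

/-! ### Isomorphisms -/

section Iso

variable {P L : Type} {K : P → Prop} {I : P → L → Prop} {P' L' : Type} {K' : P' → Prop}
  {I' : P' → L' → Prop}

/-- Three points on a line. -/
def Col (I : P → L → Prop) (x y z : P) : Prop := ∃ l, I x l ∧ I y l ∧ I z l

theorem exists_lineMap [Nonempty L'] (h2 : ∀ x l, I x l → ∃ y, y ≠ x ∧ I y l)
    (hun : ∀ x y l m, x ≠ y → I x l → I y l → I x m → I y m → l = m)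
    (hI : ∀ x l, I x l → K x)
    (hun' : ∀ x y l m, x ≠ y → I' x l → I' y l → I' x m → I' y m → l = m)
    (f : P → P') (hf : ∀ x y, K x → K y → f x = f y → x = y)
    (hcol : ∀ x y z, K x → K y → K z → (Col I x y z ↔ Col I' (f x) (f y) (f z))) (l : L) :
    ∃ l' : L', (∃ x, I x l) → ∀ x, K x → (I x l ↔ I' (f x) l') := by
  by_cases hl : ∃ x, I x l
  · obtain ⟨x, hx⟩ := hl
    obtain ⟨y, hxy, hy⟩ := h2 x l hx
    have hKx := hI _ _ hx
    have hKy := hI _ _ hy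
    have hfxy : f x ≠ f y := fun e => hxy (hf x y hKx hKy e).symm
    obtain ⟨l', h3, h4, -⟩ := (hcol x y y hKx hKy hKy).1 ⟨l, hx, hy, hy⟩
    refine ⟨l', fun _ z hKz => ⟨fun hz => ?_, fun hz => ?_⟩⟩
    · obtain ⟨m, h5, h6, h7⟩ := (hcol x y z hKx hKy hKz).1 ⟨l, hx, hy, hz⟩
      rw [hun' _ _ l' m hfxy h3 h4 h5 h6]
      exact h7
    · obtain ⟨m, h5, h6, h7⟩ := (hcol x y z hKx hKy hKz).2 ⟨l', h3, h4, hz⟩
      rw [hun _ _ l m hxy.symm hx hy h5 h6]
      exact h7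
  · exact ⟨Classical.arbitrary L', fun h => absurd h hl⟩

/-- A bijection of the points preserving collinearity gives an isomorphism. -/
theorem linGraph_iso [Nonempty L] [Nonempty L'] (h2 : ∀ x l, I x l → ∃ y, y ≠ x ∧ I y l)
    (h2' : ∀ x l, I' x l → ∃ y, y ≠ x ∧ I' y l)
    (hun : ∀ x y l m, x ≠ y → I x l → I y l → I x m → I y m → l = m)
    (hun' : ∀ x y l m, x ≠ y → I' x l → I' y l → I' x m → I' y m → l = m)
    (hI : ∀ x l, I x l → K x) (hI' : ∀ x l, I' x l → K' x)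
    (f : P → P') (g : P' → P) (hfK : ∀ x, K x → K' (f x)) (hgK : ∀ x, K' x → K (g x))
    (hgf : ∀ x, K x → g (f x) = x) (hfg : ∀ x, K' x → f (g x) = x)
    (hcol : ∀ x y z, K x → K y → K z → (Col I x y z ↔ Col I' (f x) (f y) (f z))) :
    Nonempty (linGraph K I ≃g linGraph K' I') := by
  have hf : ∀ x y, K x → K y → f x = f y → x = y := by
    intro x y hx hy e
    rw [← hgf x hx, ← hgf y hy, e]
  have hg : ∀ x y, K' x → K' y → g x = g y → x = y := by
    intro x y hx hy e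
    rw [← hfg x hx, ← hfg y hy, e]
  have hcol' : ∀ x y z, K' x → K' y → K' z → (Col I' x y z ↔ Col I (g x) (g y) (g z)) := by
    intro x y z hx hy hz
    rw [hcol _ _ _ (hgK x hx) (hgK y hy) (hgK z hz), hfg x hx, hfg y hy, hfg z hz]
  choose F hF using exists_lineMap (L' := L') h2 hun hI hun' f hf hcol
  choose F' hF' using exists_lineMap (L' := L) h2' hun' hI' hun g hg hcol'
  have hFF' : ∀ x l, I' x l → F (F' l) = l := by
    intro x l hx
    obtain ⟨y, hxy, hy⟩ := h2' x l hx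
    have hKx := hI' _ _ hx
    have hKy := hI' _ _ hy
    have g1 : I (g x) (F' l) := (hF' l ⟨x, hx⟩ x hKx).1 hx
    have e1 : I' x (F (F' l)) := by
      have := (hF (F' l) ⟨_, g1⟩ (g x) (hgK x hKx)).1 g1
      rwa [hfg x hKx] at this
    have e2 : I' y (F (F' l)) := by
      have := (hF (F' l) ⟨_, g1⟩ (g y) (hgK y hKy)).1 ((hF' l ⟨x, hx⟩ y hKy).1 hy)
      rwa [hfg y hKy] at this
    exact hun' x y _ _ hxy.symm e1 e2 hx hy
  have hF'F : ∀ x l, I x l → F' (F l) = l := by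
    intro x l hx
    obtain ⟨y, hxy, hy⟩ := h2 x l hx
    have hKx := hI _ _ hx
    have hKy := hI _ _ hy
    have g1 : I' (f x) (F l) := (hF l ⟨x, hx⟩ x hKx).1 hx
    have e1 : I x (F' (F l)) := by
      have := (hF' (F l) ⟨_, g1⟩ (f x) (hfK x hKx)).1 g1
      rwa [hgf x hKx] at this
    have e2 : I y (F' (F l)) := by
      have := (hF' (F l) ⟨_, g1⟩ (f y) (hfK y hKy)).1 ((hF l ⟨x, hx⟩ y hKy).1 hy)
      rwa [hgf y hKy] at this
    exact hun x y _ _ hxy.symm e1 e2 hx hy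
  refine ⟨⟨⟨fun v => ⟨(f v.1.1, v.1.2.map F), hfK _ v.2.1, ?_⟩,
    fun v => ⟨(g v.1.1, v.1.2.map F'), hgK _ v.2.1, ?_⟩, ?_, ?_⟩, ?_⟩⟩
  · obtain ⟨⟨x, o⟩, hx, hxo⟩ := v
    intro l hl
    rcases o with _ | m
    · simp at hl
    · simp only [Option.map_some, Option.some.injEq] at hl
      subst hl
      exact (hF m ⟨x, hxo m rfl⟩ x hx).1 (hxo m rfl)
  · obtain ⟨⟨x, o⟩, hx, hxo⟩ := v
    intro l hl
    rcases o with _ | m
    · simp at hl
    · simp only [Option.map_some, Option.some.injEq] at hl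
      subst hl
      exact (hF' m ⟨x, hxo m rfl⟩ x hx).1 (hxo m rfl)
  · rintro ⟨⟨x, o⟩, hx, hxo⟩
    refine Subtype.ext (Prod.ext (hgf x hx) ?_)
    rcases o with _ | m
    · simp
    · simp [hF'F x m (hxo m rfl)]
  · rintro ⟨⟨x, o⟩, hx, hxo⟩
    refine Subtype.ext (Prod.ext (hfg x hx) ?_)
    rcases o with _ | m
    · simp
    · simp [hFF' x m (hxo m rfl)]
  · rintro ⟨⟨x, o⟩, hx, hxo⟩ ⟨⟨y, u⟩, hy, hyo⟩
    have e1 : f x = f y ↔ x = y := ⟨hf x y hx hy, fun e => by rw [e]⟩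
    have e2 : o.map F = u.map F ↔ o = u := by
      rcases o with _ | l <;> rcases u with _ | m <;> simp only [Option.map_none, Option.map_some,
        reduceCtorEq, Option.some.injEq]
      constructor
      · intro e
        rw [← hF'F x l (hxo l rfl), ← hF'F y m (hyo m rfl), e]
      · intro e
        rw [e]
    simp [linGraph, adjR, e1, e2]

end Iso

/-! ### Reconstruction -/

section Rec

variable {W : Type} (G : SimpleGraph W)

/-- `a` lies in a triangle. -/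
def InTri (a : W) : Prop := ∃ b c, G.Adj a b ∧ G.Adj a c ∧ G.Adj b c

/-- `x` is in no triangle but has two neighbours that are. -/
def IsV (x : W) : Prop := ¬ InTri G x ∧ ∃ a b, a ≠ b ∧ G.Adj x a ∧ G.Adj x b ∧ InTri G a ∧ InTri G b

/-- `x` and `y` are joined by a path of length three whose middle edge is in a triangle. -/
def EE (x y : W) : Prop :=
  ∃ t t' t'', G.Adj x t ∧ G.Adj t t' ∧ G.Adj t' y ∧ G.Adj t t'' ∧ G.Adj t' t''

variable {G} {W' : Type} {G' : SimpleGraph W'}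

theorem inTri_iso (φ : G ≃g G') (a : W) : InTri G' (φ a) ↔ InTri G a := by
  constructor
  · rintro ⟨b, c, h1, h2, h3⟩
    refine ⟨φ.symm b, φ.symm c, ?_, ?_, ?_⟩
    · rw [← φ.map_adj_iff]; simpa using h1
    · rw [← φ.map_adj_iff]; simpa using h2
    · rw [← φ.map_adj_iff]; simpa using h3
  · rintro ⟨b, c, h1, h2, h3⟩
    exact ⟨φ b, φ c, φ.map_adj_iff.2 h1, φ.map_adj_iff.2 h2, φ.map_adj_iff.2 h3⟩

theorem isV_iso (φ : G ≃g G') (a : W) : IsV G' (φ a) ↔ IsV G a := by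
  constructor
  · rintro ⟨h0, b, c, h1, h2, h3, h4, h5⟩
    refine ⟨fun h => h0 ((inTri_iso φ a).2 h), φ.symm b, φ.symm c, ?_, ?_, ?_, ?_, ?_⟩
    · exact fun e => h1 (φ.symm.injective e)
    · rw [← φ.map_adj_iff]; simpa using h2
    · rw [← φ.map_adj_iff]; simpa using h3
    · rw [← inTri_iso φ]; simpa using h4
    · rw [← inTri_iso φ]; simpa using h5
  · rintro ⟨h0, b, c, h1, h2, h3, h4, h5⟩
    exact ⟨fun h => h0 ((inTri_iso φ a).1 h), φ b, φ c, fun e => h1 (φ.injective e),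
      φ.map_adj_iff.2 h2, φ.map_adj_iff.2 h3, (inTri_iso φ b).2 h4, (inTri_iso φ c).2 h5⟩

theorem EE_iso (φ : G ≃g G') (a b : W) : EE G' (φ a) (φ b) ↔ EE G a b := by
  constructor
  · rintro ⟨t, t', t'', h1, h2, h3, h4, h5⟩
    refine ⟨φ.symm t, φ.symm t', φ.symm t'', ?_, ?_, ?_, ?_, ?_⟩
    · rw [← φ.map_adj_iff]; simpa using h1
    · rw [← φ.map_adj_iff]; simpa using h2
    · rw [← φ.map_adj_iff]; simpa using h3
    · rw [← φ.map_adj_iff]; simpa using h4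
    · rw [← φ.map_adj_iff]; simpa using h5
  · rintro ⟨t, t', t'', h1, h2, h3, h4, h5⟩
    exact ⟨φ t, φ t', φ t'', φ.map_adj_iff.2 h1, φ.map_adj_iff.2 h2, φ.map_adj_iff.2 h3,
      φ.map_adj_iff.2 h4, φ.map_adj_iff.2 h5⟩

variable {P L : Type} {K : P → Prop} {I : P → L → Prop}

theorem inTri_iff (hI : ∀ x l, I x l → K x) (a : Vx K I) : InTri (linGraph K I) a ↔
    ∃ l, a.1.2 = some l ∧ ∃ y z, y ≠ a.1.1 ∧ z ≠ a.1.1 ∧ y ≠ z ∧ I y l ∧ I z l := by
  constructor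
  · rintro ⟨⟨⟨y, u⟩, hy, hyu⟩, ⟨⟨z, v⟩, hz, hzv⟩, h1, h2, h3⟩
    obtain ⟨⟨x, o⟩, hx, hxo⟩ := a
    simp only [linGraph, adjR] at h1 h2 h3
    rcases o with _ | l
    · rcases h1 with ⟨e1, e2, e3⟩ | ⟨e1, e2, e3⟩
      · rcases h2 with ⟨e4, e5, e6⟩ | ⟨e4, e5, e6⟩
        · rcases h3 with ⟨e7, e8, e9⟩ | ⟨e7, e8, e9⟩
          · rcases e9 with e9 | e9
            · exact absurd e9.symm e2
            · exact absurd e9.symm e5
          · exact absurd (e1.symm.trans e4) e7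
        · exact absurd rfl e6
      · exact absurd rfl e3
    · rcases h1 with ⟨e1, e2, e3⟩ | ⟨e1, e2, e3⟩
      · rcases e3 with e3 | e3
        · simp at e3
        subst e3
        rcases h2 with ⟨e4, e5, e6⟩ | ⟨e4, e5, e6⟩
        · rcases e6 with e6 | e6
          · simp at e6
          subst e6
          rcases h3 with ⟨e7, e8, e9⟩ | ⟨e7, e8, e9⟩
          · exact absurd rfl e8
          · exact absurd rfl e9
        · subst e5
          rcases h3 with ⟨e7, e8, e9⟩ | ⟨e7, e8, e9⟩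
          · exact absurd (e1.trans e7) e4
          · exact absurd rfl e9
      · subst e2
        rcases h2 with ⟨e4, e5, e6⟩ | ⟨e4, e5, e6⟩
        · rcases e6 with e6 | e6
          · simp at e6
          subst e6
          rcases h3 with ⟨e7, e8, e9⟩ | ⟨e7, e8, e9⟩
          · exact absurd (e4.trans e7.symm) e1
          · simp at e8
        · subst e5
          rcases h3 with ⟨e7, e8, e9⟩ | ⟨e7, e8, e9⟩
          · exact absurd rfl e8
          · exact ⟨l, rfl, y, z, Ne.symm e1, Ne.symm e4, e7, hyu l rfl, hzv l rfl⟩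
  · rintro ⟨l, hl, y, z, h1, h2, h3, h4, h5⟩
    obtain ⟨⟨x, o⟩, hx, hxo⟩ := a
    simp only at hl h1 h2
    subst hl
    exact ⟨fv (hI _ _ h4) h4, fv (hI _ _ h5) h5, adj_ff hx (hxo l rfl) _ h4 h1.symm,
      adj_ff hx (hxo l rfl) _ h5 h2.symm, adj_ff _ h4 _ h5 h3⟩

/-- `l` has at least three points. -/
def Big (I : P → L → Prop) (l : L) : Prop := ∃ x y z, x ≠ y ∧ x ≠ z ∧ y ≠ z ∧ I x l ∧ I y l ∧ I z l

theorem inTri_iff' (hI : ∀ x l, I x l → K x) (a : Vx K I) : InTri (linGraph K I) a ↔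
    ∃ l, a.1.2 = some l ∧ Big I l := by
  rw [inTri_iff hI]
  constructor
  · rintro ⟨l, hl, y, z, h1, h2, h3, h4, h5⟩
    exact ⟨l, hl, a.1.1, y, z, h1.symm, h2.symm, h3, a.2.2 l hl, h4, h5⟩
  · rintro ⟨l, hl, x, y, z, h1, h2, h3, h4, h5, h6⟩
    refine ⟨l, hl, ?_⟩
    by_cases hx : x = a.1.1
    · exact ⟨y, z, hx ▸ h1.symm, hx ▸ h2.symm, h3, h5, h6⟩
    · by_cases hy : y = a.1.1
      · exact ⟨x, z, hx, hy ▸ h3.symm, h2, h4, h6⟩
      · exact ⟨x, y, hx, hy, h1, h4, h5⟩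

theorem isV_iff (hI : ∀ x l, I x l → K x) (a : Vx K I) : IsV (linGraph K I) a ↔
    a.1.2 = none ∧ ∃ l m, l ≠ m ∧ I a.1.1 l ∧ I a.1.1 m ∧ Big I l ∧ Big I m := by
  constructor
  · rintro ⟨h0, b, c, h1, h2, h3, h4, h5⟩
    obtain ⟨⟨x, o⟩, hx, hxo⟩ := a
    obtain ⟨⟨y, u⟩, hy, hyu⟩ := b
    obtain ⟨⟨z, v⟩, hz, hzv⟩ := c
    rw [inTri_iff' hI] at h0 h4 h5
    obtain ⟨l, hl, hl'⟩ := h4
    obtain ⟨m, hm, hm'⟩ := h5
    simp only at hl hm h0
    subst hl hm
    rcases o with _ | k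
    · refine ⟨rfl, l, m, ?_, ?_, ?_, hl', hm'⟩
      · rintro rfl
        apply h1
        rcases h2 with ⟨e1, e2, e3⟩ | ⟨e1, e2, e3⟩
        · rcases h3 with ⟨e4, e5, e6⟩ | ⟨e4, e5, e6⟩
          · simp only at e1 e4
            subst e1 e4
            rfl
          · exact absurd rfl e6
        · exact absurd rfl e3
      · rcases h2 with ⟨e1, e2, e3⟩ | ⟨e1, e2, e3⟩
        · simp only at e1
          subst e1
          exact hyu l rfl
        · exact absurd rfl e3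
      · rcases h3 with ⟨e1, e2, e3⟩ | ⟨e1, e2, e3⟩
        · simp only at e1
          subst e1
          exact hzv m rfl
        · exact absurd rfl e3
    · exfalso
      rcases h2 with ⟨e1, e2, e3⟩ | ⟨e1, e2, e3⟩
      · simp at e3
      · simp only [Option.some.injEq] at e2
        subst e2
        exact h0 ⟨k, rfl, hl'⟩
  · rintro ⟨h0, l, m, h1, h2, h3, h4, h5⟩
    obtain ⟨⟨x, o⟩, hx, hxo⟩ := a
    simp only at h0 h2 h3
    subst h0
    refine ⟨?_, fv hx h2, fv hx h3, ?_, adj_pf hx h2, adj_pf hx h3, ?_, ?_⟩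
    · rw [inTri_iff' hI]
      rintro ⟨k, hk, -⟩
      simp at hk
    · intro e
      apply h1
      have := congrArg (fun v => v.1.2) e
      simpa [fv] using this
    · rw [inTri_iff' hI]
      exact ⟨l, rfl, h4⟩
    · rw [inTri_iff' hI]
      exact ⟨m, rfl, h5⟩

theorem EE_iff (hI : ∀ x l, I x l → K x) {x y : P} (hx : K x) (hy : K y) (hxy : x ≠ y) :
    EE (linGraph K I) (pv hx) (pv hy) ↔ ∃ l, I x l ∧ I y l ∧ Big I l := by
  constructor
  · rintro ⟨⟨⟨a, u⟩, ha, hau⟩, ⟨⟨b, v⟩, hb, hbv⟩, ⟨⟨c, w⟩, hc, hcw⟩, h1, h2, h3, h4, h5⟩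
    have h6 : InTri (linGraph K I) ⟨⟨a, u⟩, ha, hau⟩ := ⟨_, _, h2, h4, h5⟩
    rw [inTri_iff' hI] at h6
    obtain ⟨l, hl, hl'⟩ := h6
    simp only at hl
    subst hl
    have e0 : x = a := by
      rcases h1 with ⟨e1, e2, e3⟩ | ⟨e1, e2, e3⟩
      · exact e1
      · exact absurd rfl e3
    subst e0
    have e0 : b = y := by
      rcases h3 with ⟨e1, e2, e3⟩ | ⟨e1, e2, e3⟩
      · exact e1
      · exact absurd e2 e3
    subst e0
    refine ⟨l, hau l rfl, ?_, hl'⟩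
    rcases h2 with ⟨e1, e2, e3⟩ | ⟨e1, e2, e3⟩
    · exact absurd e1 hxy
    · simp only at e2
      exact hbv l e2.symm
  · rintro ⟨l, h1, h2, h3⟩
    have h4 : InTri (linGraph K I) (fv hx h1) := by
      rw [inTri_iff' hI]
      exact ⟨l, rfl, h3⟩
    obtain ⟨x', y', z', g1, g2, g3, g4, g5, g6⟩ := h3
    have : ∃ w, w ≠ x ∧ w ≠ y ∧ I w l := by
      by_cases e1 : x' = x
      · by_cases e2 : y' = y
        · exact ⟨z', e1 ▸ g2.symm, e2 ▸ g3.symm, g6⟩
        · exact ⟨y', e1 ▸ g1.symm, e2, g5⟩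
      · by_cases e2 : x' = y
        · by_cases e3 : y' = x
          · exact ⟨z', e3 ▸ g3.symm, e2 ▸ g2.symm, g6⟩
          · exact ⟨y', e3, e2 ▸ g1.symm, g5⟩
        · exact ⟨x', e1, e2, g4⟩
    obtain ⟨w, w1, w2, w3⟩ := this
    exact ⟨fv hx h1, fv hy h2, fv (hI _ _ w3) w3, adj_pf hx h1, adj_ff hx h1 hy h2 hxy,
      (adj_pf hy h2).symm, adj_ff hx h1 _ w3 w1.symm, adj_ff hy h2 _ w3 w2.symm⟩

end Rec

end Pool.Agent.TH658.Geo
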