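import Mathlib

/-!
# Geodetic graphs from linear spaces
-/

set_option autoImplicit false

namespace Pool.Agent.TH658.Geo

/-- A graph is geodetic if it is connected and every two vertices are joined by exactly one
shortest path. -/
def Geodetic {V : Type} (G : SimpleGraph V) : Prop :=
  G.Connected ∧ ∀ u v : V, ∃! p : G.Path u v, (p : G.Walk u v).length = G.dist u v

section D

variable {V : Type} {G : SimpleGraph V} {D : V → V → ℕ}

theorem D_le_length (h0 : ∀ x, D x x = 0)
    (h1 : ∀ x x' y, G.Adj x x' → D x y ≤ D x' y + 1) :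
    ∀ {x y : V} (p : G.Walk x y), D x y ≤ p.length := by
  intro x y p
  induction p with
  | nil => simp [h0]
  | cons h p ih =>
    rw [SimpleGraph.Walk.length_cons]
    exact (h1 _ _ _ h).trans (by omega)

theorem exists_walk (h0 : ∀ x y, D x y = 0 → x = y)
    (h2 : ∀ x y, x ≠ y → ∃ x', G.Adj x x' ∧ D x' y + 1 = D x y) (hs : ∀ x, D x x = 0) :
    ∀ (n : ℕ) (x y : V), D x y = n → ∃ p : G.Walk x y, p.length = n := by
  intro n
  induction n with
  | zero =>
    intro x y h
    obtain rfl := h0 x y h
    exact ⟨SimpleGraph.Walk.nil, rfl⟩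
  | succ n ih =>
    intro x y h
    have hxy : x ≠ y := by
      rintro rfl
      rw [hs] at h
      omega
    obtain ⟨x', ha, hd⟩ := h2 x y hxy
    obtain ⟨p, hp⟩ := ih x' y (by omega)
    exact ⟨SimpleGraph.Walk.cons ha p, by simp [hp]⟩

theorem geodetic_of_D [Nonempty V] (hs : ∀ x, D x x = 0) (h0 : ∀ x y, D x y = 0 → x = y)
    (h1 : ∀ x x' y, G.Adj x x' → D x y ≤ D x' y + 1)
    (h2 : ∀ x y, x ≠ y → ∃! x', G.Adj x x' ∧ D x' y + 1 = D x y) :
    Geodetic G ∧ ∀ x y, G.dist x y = D x y := by
  have hw : ∀ (x y : V), ∃ p : G.Walk x y, p.length = D x y := fun x y =>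
    exists_walk h0 (fun x y h => (h2 x y h).exists) hs _ x y rfl
  have hle := fun (x y : V) (p : G.Walk x y) => D_le_length hs h1 p
  have hconn : G.Connected := by
    refine SimpleGraph.connected_iff_exists_forall_reachable G |>.2 ?_
    exact ⟨Classical.arbitrary V, fun y => ⟨(hw _ y).choose⟩⟩
  have hd : ∀ x y, G.dist x y = D x y := by
    intro x y
    obtain ⟨p, hp⟩ := hw x y
    refine le_antisymm (hp ▸ SimpleGraph.dist_le p) ?_
    obtain ⟨q, hq⟩ := hconn.exists_walk_length_eq_dist x y
    rw [← hq]
    exact hle _ _ q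
  have huniq : ∀ (n : ℕ) (x y : V) (p q : G.Walk x y), D x y = n → p.length = n → q.length = n →
      p = q := by
    intro n
    induction n with
    | zero =>
      intro x y p q h hp hq
      have hxy := h0 x y h
      subst hxy
      cases p with
      | cons _ _ => simp at hp
      | nil =>
        cases q with
        | cons _ _ => simp at hq
        | nil => rfl
    | succ n ih =>
      intro x y p q h hp hq
      cases p with
      | nil => simp at hp
      | cons ha p =>
        cases q with
        | nil => simp at hq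
        | cons hb q =>
          rename_i x' x''
          simp only [SimpleGraph.Walk.length_cons, Nat.add_right_cancel_iff] at hp hq
          have e1 := hle _ _ p
          have e2 := hle _ _ q
          have e3 := h1 _ _ y ha
          have e4 := h1 _ _ y hb
          have hxy : x ≠ y := by
            rintro rfl
            rw [hs] at h
            omega
          have e5 : x' = x'' :=
            (h2 x y hxy).unique ⟨ha, by omega⟩ ⟨hb, by omega⟩
          subst e5
          rw [ih _ _ p q (by omega) hp hq]
  refine ⟨⟨hconn, fun x y => ?_⟩, hd⟩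
  obtain ⟨p, hp⟩ := hw x y
  have hpd : p.length = G.dist x y := by rw [hp, hd]
  refine ⟨⟨p, p.isPath_of_length_eq_dist hpd⟩, hpd, ?_⟩
  rintro ⟨q, hqp⟩ hq
  refine Subtype.ext ?_
  exact huniq _ x y q p rfl (by rw [← hd]; exact hq) hp

end D

/-! ### The geodetic graph of a linear space -/

section Lin

variable {P L : Type} (K : P → Prop) (I : P → L → Prop)

/-- Vertices: the points `(x, none)` and the flags `(x, some l)`, `x ∈ l`. -/
abbrev Vx : Type := {q : P × Option L // K q.1 ∧ ∀ l, q.2 = some l → I q.1 l}

/-- Adjacency of points and flags. -/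
def adjR (a b : P × Option L) : Prop :=
  (a.1 = b.1 ∧ a.2 ≠ b.2 ∧ (a.2 = none ∨ b.2 = none)) ∨ (a.1 ≠ b.1 ∧ a.2 = b.2 ∧ a.2 ≠ none)

theorem adjR_symm {a b : P × Option L} (h : adjR a b) : adjR b a := by
  rcases h with ⟨h1, h2, h3⟩ | ⟨h1, h2, h3⟩
  · exact Or.inl ⟨h1.symm, h2.symm, h3.symm⟩
  · exact Or.inr ⟨Ne.symm h1, h2.symm, h2 ▸ h3⟩

theorem adjR_irrefl {a : P × Option L} : ¬ adjR a a := by
  rintro (⟨_, h, _⟩ | ⟨h, _⟩)
  · exact h rfl
  · exact h rfl

/-- The graph on the points and flags of a linear space: a point is adjacent to its flags, and two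
flags with the same line are adjacent. -/
def linGraph : SimpleGraph (Vx K I) where
  Adj a b := adjR a.1 b.1
  symm := ⟨fun _ _ h => adjR_symm h⟩
  loopless := ⟨fun _ h => adjR_irrefl h⟩

open Classical in
/-- The distances. -/
noncomputable def Dl : P → Option L → P → Option L → ℕ
  | x, none, y, none => if x = y then 0 else 3
  | x, none, y, some m => if x = y then 1 else if I x m then 2 else 4
  | x, some l, y, none => if x = y then 1 else if I y l then 2 else 4
  | x, some l, y, some m => if l = m then (if x = y then 0 else 1) else if x = y then 2 else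
      if I x m ∨ I y l then 3 else if ∃ z, I z l ∧ I z m then 4 else 5

variable {K I}
variable (hI : ∀ x l, I x l → K x) (hex : ∀ x y, K x → K y → x ≠ y → ∃ l, I x l ∧ I y l)
  (hun : ∀ x y l m, x ≠ y → I x l → I y l → I x m → I y m → l = m)

theorem Dl_self (a : P × Option L) : Dl I a.1 a.2 a.1 a.2 = 0 := by
  obtain ⟨x, _ | l⟩ := a <;> simp [Dl]

theorem Dl_eq_zero {x : P} {o : Option L} {y : P} {o' : Option L} (h : Dl I x o y o' = 0) :
    (x, o) = (y, o') := by
  rcases o with _ | l <;> rcases o' with _ | m <;> simp only [Dl] at h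
  · split_ifs at h with h1
    rw [h1]
  · split_ifs at h
  · split_ifs at h
  · split_ifs at h with h1 h2 
    rw [h1, h2]

theorem Dl_step {x : P} {o : Option L} {x' : P} {u : Option L} {y : P} {o' : Option L}
    (hx : ∀ l, o = some l → I x l) (hx' : ∀ l, u = some l → I x' l)
    (h : adjR (x, o) (x', u)) : Dl I x o y o' ≤ Dl I x' u y o' + 1 := by
  rcases h with ⟨h1, h2, h3⟩ | ⟨h1, h2, h3⟩
  · simp only at h1 h2 h3
    subst h1
    rcases o with _ | l
    · rcases u with _ | l
      · exact absurd rfl h2
      · have hl := hx' l rfl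
        rcases o' with _ | m <;> simp only [Dl] <;> split_ifs <;> simp_all
    · rcases u with _ | l'
      · have hl := hx l rfl
        rcases o' with _ | m <;> simp only [Dl] <;> split_ifs <;> simp_all
      · simp at h3
  · simp only at h1 h2 h3
    subst h2
    rcases o with _ | l
    · exact absurd rfl h3
    · have hl := hx l rfl
      have hl' := hx' l rfl
      rcases o' with _ | m
      · simp only [Dl]
        split_ifs <;> simp_all
      · simp only [Dl]
        split_ifs <;> simp_all

include hI hex hun in
theorem Dl_pred {x : P} {o : Option L} {y : P} {o' : Option L} (hKx : K x) (hKy : K y)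
    (hx : ∀ l, o = some l → I x l) (hy : ∀ l, o' = some l → I y l)
    (h : (x, o) ≠ (y, o')) : ∃! q : P × Option L, (K q.1 ∧ ∀ l, q.2 = some l → I q.1 l) ∧
      adjR (x, o) q ∧ Dl I q.1 q.2 y o' + 1 = Dl I x o y o' := by
  rcases o with _ | l
  · -- a point
    have key : ∀ l₀, I x l₀ → Dl I x (some l₀) y o' + 1 = Dl I x none y o' →
        (∀ l, I x l → Dl I x (some l) y o' + 1 = Dl I x none y o' → l = l₀) →
        ∃! q : P × Option L, (K q.1 ∧ ∀ l, q.2 = some l → I q.1 l) ∧
          adjR (x, none) q ∧ Dl I q.1 q.2 y o' + 1 = Dl I x none y o' := by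
      intro l₀ h1 h2 h3
      refine ⟨(x, some l₀), ⟨⟨hKx, ?_⟩, ?_, h2⟩, ?_⟩
      · intro l hl
        simp only [Option.some.injEq] at hl
        exact hl ▸ h1
      · exact Or.inl ⟨rfl, by simp, Or.inl rfl⟩
      · rintro ⟨z, u⟩ ⟨⟨_, g1⟩, g2, g3⟩
        rcases g2 with ⟨e1, e2, e3⟩ | ⟨e1, e2, e3⟩
        · simp only at e1 e2
          subst e1
          rcases u with _ | l
          · exact absurd rfl e2
          · rw [h3 l (g1 l rfl) g3]
        · exact absurd rfl e3
    rcases o' with _ | m
    · have hxy : x ≠ y := fun e => h (by rw [e])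
      obtain ⟨l₀, h1, h2⟩ := hex x y hKx hKy hxy
      refine key l₀ h1 (by simp [Dl, hxy, h2]) fun l hl hD => ?_
      by_cases h3 : I y l
      · exact hun x y l l₀ hxy hl h3 h1 h2
      · simp [Dl, hxy, h3] at hD
    · have hm := hy m rfl
      by_cases hxm : I x m
      · refine key m hxm ?_ fun l hl hD => ?_
        · by_cases hxy : x = y <;> simp [Dl, hxy, hxm]
        · by_contra hne
          by_cases hxy : x = y <;> simp [Dl, hxy, hxm, hne] at hD
      · have hxy : x ≠ y := by rintro rfl; exact hxm hm
        obtain ⟨l₀, h1, h2⟩ := hex x y hKx hKy hxy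
        have hne : l₀ ≠ m := by rintro rfl; exact hxm h1
        refine key l₀ h1 (by simp [Dl, hxy, h2, hne, hxm]) fun l hl hD => ?_
        by_cases h3 : I y l
        · exact hun x y l l₀ hxy hl h3 h1 h2
        · have hne' : l ≠ m := by rintro rfl; exact hxm hl
          simp only [Dl, hne', hxy, hxm, h3, if_false, or_self] at hD
          split_ifs at hD <;> omega
  · -- a flag
    have hl := hx l rfl
    have key1 : Dl I x none y o' + 1 = Dl I x (some l) y o' →
        (∀ z, z ≠ x → I z l → Dl I z (some l) y o' + 1 = Dl I x (some l) y o' → False) →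
        ∃! q : P × Option L, (K q.1 ∧ ∀ l, q.2 = some l → I q.1 l) ∧
          adjR (x, some l) q ∧ Dl I q.1 q.2 y o' + 1 = Dl I x (some l) y o' := by
      intro h1 h2
      refine ⟨(x, none), ⟨⟨hKx, by simp⟩, Or.inl ⟨rfl, by simp, Or.inr rfl⟩, h1⟩, ?_⟩
      rintro ⟨z, u⟩ ⟨⟨_, g1⟩, g2, g3⟩
      rcases g2 with ⟨e1, e2, e3⟩ | ⟨e1, e2, e3⟩
      · simp only at e1 e2 e3
        subst e1
        rcases e3 with e3 | e3
        · simp at e3
        · rw [e3]
      · simp only at e1 e2 e3
        subst e2
        exact (h2 z (Ne.symm e1) (g1 l rfl) g3).elim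
    have key2 : ∀ w, w ≠ x → I w l → Dl I w (some l) y o' + 1 = Dl I x (some l) y o' →
        Dl I x none y o' + 1 ≠ Dl I x (some l) y o' →
        (∀ z, z ≠ x → I z l → Dl I z (some l) y o' + 1 = Dl I x (some l) y o' → z = w) →
        ∃! q : P × Option L, (K q.1 ∧ ∀ l, q.2 = some l → I q.1 l) ∧
          adjR (x, some l) q ∧ Dl I q.1 q.2 y o' + 1 = Dl I x (some l) y o' := by
      intro w hw hwl h1 h2 h3
      refine ⟨(w, some l), ⟨⟨hI _ _ hwl, ?_⟩, Or.inr ⟨Ne.symm hw, rfl, by simp⟩, h1⟩, ?_⟩
      · intro l' hl'
        simp only [Option.some.injEq] at hl'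
        exact hl' ▸ hwl
      rintro ⟨z, u⟩ ⟨⟨_, g1⟩, g2, g3⟩
      rcases g2 with ⟨e1, e2, e3⟩ | ⟨e1, e2, e3⟩
      · simp only at e1 e2 e3
        subst e1
        rcases e3 with e3 | e3
        · simp at e3
        · subst e3
          exact absurd g3 h2
      · simp only at e1 e2 e3
        subst e2
        rw [h3 z (Ne.symm e1) (g1 l rfl) g3]
    rcases o' with _ | m
    · by_cases hxy : x = y
      · subst hxy
        refine key1 (by simp [Dl]) fun z hz hzl hD => ?_
        simp only [Dl, hz, if_false, if_true] at hD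
        split_ifs at hD
        omega
      · by_cases hyl : I y l
        · refine key2 y (Ne.symm hxy) hyl (by simp [Dl, hxy, hyl]) (by simp [Dl, hxy, hyl])
            fun z hz hzl hD => ?_
          by_contra hzy
          simp [Dl, hxy, hyl, hzy] at hD
        · refine key1 (by simp [Dl, hxy, hyl]) fun z hz hzl hD => ?_
          by_cases hzy : z = y
          · exact hyl (hzy ▸ hzl)
          · simp [Dl, hxy, hyl, hzy] at hD
    · have hm := hy m rfl
      by_cases hlm : l = m
      · subst hlm
        have hxy : x ≠ y := fun e => h (by rw [e])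
        refine key2 y (Ne.symm hxy) hm (by simp [Dl, hxy]) (by simp [Dl, hxy, hl])
          fun z hz hzl hD => ?_
        by_contra hzy
        simp [Dl, hxy, hzy] at hD
      · by_cases hxy : x = y
        · subst hxy
          refine key1 (by simp [Dl, hlm]) fun z hz hzl hD => ?_
          simp only [Dl, hlm, hz, if_false, if_true] at hD
          split_ifs at hD <;> omega
        · by_cases hyl : I y l
          · have hxm : ¬ I x m := fun e => hlm (hun x y l m hxy hl hyl e hm)
            refine key2 y (Ne.symm hxy) hyl (by simp [Dl, hxy, hyl, hlm])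
              (by simp [Dl, hxy, hyl, hlm, hxm]) fun z hz hzl hD => ?_
            by_contra hzy
            simp only [Dl, hlm, hzy, hxy, hyl, or_true, if_false, if_true] at hD
            omega
          · by_cases hxm : I x m
            · refine key1 (by simp [Dl, hxy, hxm, hlm]) fun z hz hzl hD => ?_
              have hzy : z ≠ y := by rintro rfl; exact hyl hzl
              simp only [Dl, hlm, hzy, hxy, hyl, hxm, or_false, if_false, if_true] at hD
              split_ifs at hD <;> omega
            · by_cases hw : ∃ z, I z l ∧ I z m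
              · obtain ⟨w, hwl, hwm⟩ := hw
                have hw : ∃ z, I z l ∧ I z m := ⟨w, hwl, hwm⟩
                have hwx : w ≠ x := by rintro rfl; exact hxm hwm
                have hwy : w ≠ y := by rintro rfl; exact hyl hwl
                refine key2 w hwx hwl ?_ ?_ fun z hz hzl hD => ?_
                · simp only [Dl, hlm, hxy, hyl, hxm, hwy, hwm, or_false, if_false, if_true, hw]
                · simp only [Dl, hlm, hxy, hyl, hxm, or_false, if_false, hw, if_true]
                  omega
                · by_contra hzw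
                  have hzm : ¬ I z m := fun e => hlm (hun z w l m hzw hzl hwl e hwm)
                  have hzy : z ≠ y := by rintro rfl; exact hyl hzl
                  simp only [Dl, hlm, hxy, hyl, hxm, hzy, hzm, or_false, if_false, hw,
                    if_true] at hD
                  omega
              · refine key1 ?_ fun z hz hzl hD => ?_
                · simp only [Dl, hlm, hxy, hyl, hxm, or_false, if_false, hw]
                · have hzm : ¬ I z m := fun e => hw ⟨z, hzl, e⟩
                  have hzy : z ≠ y := by rintro rfl; exact hyl hzl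
                  simp only [Dl, hlm, hxy, hyl, hxm, hzy, hzm, or_false, if_false, hw] at hD
                  omega

include hI hex hun in
/-- The graph on points and flags of a linear space is geodetic, with the distances `Dl`. -/
theorem linGraph_geodetic (hne : ∃ x, K x) : Geodetic (linGraph K I) ∧
    ∀ x y : Vx K I, (linGraph K I).dist x y = Dl I x.1.1 x.1.2 y.1.1 y.1.2 := by
  obtain ⟨x₀, hx₀⟩ := hne
  have : Nonempty (Vx K I) := ⟨⟨(x₀, none), by simpa using hx₀⟩⟩
  refine geodetic_of_D (D := fun x y : Vx K I => Dl I x.1.1 x.1.2 y.1.1 y.1.2) ?_ ?_ ?_ ?_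
  · exact fun x => Dl_self x.1
  · exact fun x y h => Subtype.ext (Dl_eq_zero h)
  · exact fun x x' y h => Dl_step x.2.2 x'.2.2 h
  · intro x y h
    obtain ⟨q, ⟨h1, h2, h3⟩, h4⟩ := Dl_pred hI hex hun x.2.1 y.2.1 x.2.2 y.2.2
      (fun e => h (Subtype.ext e))
    refine ⟨⟨q, h1⟩, ⟨h2, h3⟩, ?_⟩
    rintro ⟨q', h1'⟩ ⟨h2', h3'⟩
    exact Subtype.ext (h4 q' ⟨h1', h2', h3'⟩)

theorem Dl_le (x : P) (o : Option L) (y : P) (o' : Option L) : Dl I x o y o' ≤ 5 := by
  rcases o with _ | l <;> rcases o' with _ | m <;> simp only [Dl] <;> split_ifs <;> omega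

/-- A graph is two-connected if it is connected and remains connected when any vertex is
removed. -/
def TwoConnected {V : Type} (G : SimpleGraph V) : Prop :=
  G.Connected ∧ ∀ z : V, (G.induce {z}ᶜ).Connected

end Lin

end Pool.Agent.TH658.Geo
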