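import Pool.Agent.TH658.Geo.Time

/-!
# Completeness for graph isomorphism
-/

set_option autoImplicit false

namespace Pool.Agent.TH658.Geo

open Pool.Agent.NPC

/-! ### Invariance -/

theorem twoConnected_iso {V W : Type} {G : SimpleGraph V} {H : SimpleGraph W} (φ : G ≃g H)
    (h : TwoConnected H) : TwoConnected G := by
  refine ⟨φ.connected_iff.2 h.1, fun z => ?_⟩
  have h1 := h.2 (φ z)
  have h2 : ({z}ᶜ : Set V) = φ ⁻¹' {φ z}ᶜ := by
    ext x
    simp
  let ψ : G.induce {z}ᶜ ≃g H.induce {φ z}ᶜ :=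
    ⟨φ.toEquiv.subtypeEquiv (fun a => by simp), fun {a b} => φ.map_adj_iff⟩
  exact ψ.connected_iff.2 h1

theorem geodetic_iso_of_D {V W : Type} {G : SimpleGraph V} {H : SimpleGraph W} (φ : G ≃g H)
    [Nonempty W] {D : W → W → ℕ} (hs : ∀ x, D x x = 0) (h0 : ∀ x y, D x y = 0 → x = y)
    (h1 : ∀ x x' y, H.Adj x x' → D x y ≤ D x' y + 1)
    (h2 : ∀ x y, x ≠ y → ∃! x', H.Adj x x' ∧ D x' y + 1 = D x y) :
    Geodetic G ∧ ∀ x y, G.dist x y = D (φ x) (φ y) := by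
  have : Nonempty V := φ.toEquiv.nonempty
  refine geodetic_of_D (D := fun x y => D (φ x) (φ y)) (fun x => hs _)
    (fun x y h => φ.injective (h0 _ _ h)) (fun x x' y h => h1 _ _ _ (φ.map_adj_iff.2 h)) ?_
  intro x y hxy
  obtain ⟨z, ⟨h3, h4⟩, h5⟩ := h2 (φ x) (φ y) (fun h => hxy (φ.injective h))
  refine ⟨φ.symm z, ⟨?_, ?_⟩, ?_⟩
  · rw [← φ.map_adj_iff]
    simpa using h3
  · simpa using h4
  · rintro w ⟨h6, h7⟩
    have := h5 (φ w) ⟨φ.map_adj_iff.2 h6, h7⟩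
    rw [← this]
    simp

theorem GG_transfer {n : ℕ} {e : ℕ → ℕ → Bool} (he : ∀ u w, u < n → w < n → e u w = e w u)
    {V : Type} {G : SimpleGraph V} (φ : G ≃g GG n e) :
    Geodetic G ∧ TwoConnected G ∧ ∀ x y, G.dist x y ≤ 5 := by
  have : Nonempty (Vx (KK n e) (II n e)) := ⟨pv (KK_extra (i := 0) (by omega))⟩
  obtain ⟨h1, h2⟩ := geodetic_iso_of_D φ
    (D := fun x y => Dl (II n e) x.1.1 x.1.2 y.1.1 y.1.2)
    (fun x => Dl_self x.1) (fun x y h => Subtype.ext (Dl_eq_zero h))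
    (fun x x' y h => Dl_step x.2.2 x'.2.2 h) (by
      intro x y h
      obtain ⟨q, ⟨h1, h2, h3⟩, h4⟩ := Dl_pred (KK_of_II he) II_exists II_unique x.2.1 y.2.1
        x.2.2 y.2.2 (fun e => h (Subtype.ext e))
      refine ⟨⟨q, h1⟩, ⟨h2, h3⟩, ?_⟩
      rintro ⟨q', h1'⟩ ⟨h2', h3'⟩
      exact Subtype.ext (h4 q' ⟨h1', h2', h3'⟩))
  exact ⟨h1, twoConnected_iso φ (GG_twoConnected he), fun x y => (h2 x y).trans_le (Dl_le _ _ _ _)⟩

theorem R_props {M : Mat} (h : IsAdj M) :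
    Geodetic (toG (R M)) ∧ TwoConnected (toG (R M)) ∧ ∀ x y, (toG (R M)).dist x y ≤ 5 := by
  obtain ⟨φ⟩ := R_iso M
  exact GG_transfer (symm_of_isAdj h) φ

theorem R_iff {M M' : Mat} (h : IsAdj M) (h' : IsAdj M') :
    Nonempty (toG M ≃g toG M') ↔ Nonempty (toG (R M) ≃g toG (R M')) := by
  obtain ⟨φ⟩ := R_iso M
  obtain ⟨φ'⟩ := R_iso M'
  constructor
  · intro h1
    obtain ⟨ψ⟩ := GG_iso_of_iso (symm_of_isAdj h) (symm_of_isAdj h') h1
    exact ⟨(φ.trans ψ).trans φ'.symm⟩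
  · rintro ⟨ψ⟩
    exact iso_of_GG_iso (symm_of_isAdj h) (symm_of_isAdj h') ⟨(φ.symm.trans ψ).trans φ'⟩

/-! ### The problems -/

/-- Graph isomorphism: pairs of adjacency matrices of isomorphic graphs. -/
def GI (p : Mat × Mat) : Prop := IsAdj p.1 ∧ IsAdj p.2 ∧ Nonempty (toG p.1 ≃g toG p.2)

/-- Some polynomial-time algorithm decides isomorphism of pairs of graphs with the property `Q`,
given by their adjacency matrices (on other inputs it may do anything). -/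
def IsoAlg (Q : ∀ {V : Type}, SimpleGraph V → Prop) : Prop :=
  ∃ A : List Bool → List Bool, PolyTime A ∧ ∀ M M' : Mat, IsAdj M → IsAdj M' →
    Q (toG M) → Q (toG M') → (A (bits (M, M')) = [true] ↔ Nonempty (toG M ≃g toG M'))

/-- the reduction on pairs: pairs which do not consist of adjacency matrices are mapped to a
fixed pair of nonisomorphic graphs -/
def R2 (p : Mat × Mat) : Mat × Mat :=
  if IsAdj p.1 ∧ IsAdj p.2 then (R p.1, R p.2) else (R [], R [[false]])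

theorem poly_R2 : Poly R2 :=
  NPC.Poly.ite (NPC.Poly.decide_and (poly_isAdj (NPC.Poly.fst NPC.Poly.id))
    (poly_isAdj (NPC.Poly.snd NPC.Poly.id)))
    (NPC.Poly.pair (poly_R (NPC.Poly.fst NPC.Poly.id)) (poly_R (NPC.Poly.snd NPC.Poly.id)))
    (NPC.Poly.const _)

theorem isAdj_nil : IsAdj [] := by decide

theorem isAdj_one : IsAdj [[false]] := by decide

theorem not_iso : ¬ Nonempty (toG [] ≃g toG [[false]]) := by
  rintro ⟨φ⟩
  exact (φ.symm ⟨0, by simp⟩).elim0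

theorem gi_iff_R2 (p : Mat × Mat) : GI p ↔ Nonempty (toG (R2 p).1 ≃g toG (R2 p).2) := by
  unfold R2
  by_cases h : IsAdj p.1 ∧ IsAdj p.2
  · rw [if_pos h]
    exact ⟨fun h1 => (R_iff h.1 h.2).1 h1.2.2, fun h1 => ⟨h.1, h.2, (R_iff h.1 h.2).2 h1⟩⟩
  · rw [if_neg h]
    constructor
    · exact fun h1 => absurd ⟨h1.1, h1.2.1⟩ h
    · intro h1
      exact absurd ((R_iff isAdj_nil isAdj_one).2 h1) not_iso

theorem R2_props (p : Mat × Mat) : (IsAdj (R2 p).1 ∧ IsAdj (R2 p).2) ∧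
    (Geodetic (toG (R2 p).1) ∧ TwoConnected (toG (R2 p).1) ∧
      ∀ x y, (toG (R2 p).1).dist x y ≤ 5) ∧
    (Geodetic (toG (R2 p).2) ∧ TwoConnected (toG (R2 p).2) ∧
      ∀ x y, (toG (R2 p).2).dist x y ≤ 5) := by
  unfold R2
  by_cases h : IsAdj p.1 ∧ IsAdj p.2
  · rw [if_pos h]
    exact ⟨⟨isAdj_R _, isAdj_R _⟩, R_props h.1, R_props h.2⟩
  · rw [if_neg h]
    exact ⟨⟨isAdj_R _, isAdj_R _⟩, R_props isAdj_nil, R_props isAdj_one⟩

/-- If isomorphism of geodetic, two-connected graphs of diameter at most five is decidable in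
polynomial time then graph isomorphism is in `P`. -/
theorem gi_of_alg (h : IsoAlg (fun G => Geodetic G ∧ TwoConnected G ∧ ∀ x y, G.dist x y ≤ 5)) :
    InPP GI := by
  obtain ⟨A, hA, hA'⟩ := h
  have hg : Poly (fun x : List Bool => match unbits (Mat × Mat) x with
      | none => R2 ([], [[false]])
      | some p => R2 p) :=
    (NPC.Poly.optCases (g := fun _ => R2 ([], [[false]])) (h := fun _ p => R2 p) poly_unbits
      (NPC.Poly.const _) (poly_R2.comp (NPC.Poly.snd NPC.Poly.id))).congr fun x => by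
        cases unbits (Mat × Mat) x <;> rfl
  have hF := polyTime_bits hg
  refine ⟨_, H642R2.TMSim.polyTime_comp hA hF, fun x => ?_⟩
  have key : ∀ p : Mat × Mat, A (bits (R2 p)) = [true] ↔ GI p := by
    intro p
    obtain ⟨⟨h1, h2⟩, h3, h4⟩ := R2_props p
    rw [gi_iff_R2 p, ← hA' _ _ h1 h2 h3 h4]
  rw [mem_lang_iff]
  cases hx : unbits (Mat × Mat) x with
  | none =>
    simp only [reduceCtorEq, false_and, exists_false, false_iff]
    rw [key]
    exact fun h => not_iso h.2.2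
  | some p =>
    simp only [Option.some.injEq, exists_eq_left']
    exact (key p).symm

theorem alg_of_gi (Q : ∀ {V : Type}, SimpleGraph V → Prop) (h : InPP GI) : IsoAlg Q := by
  obtain ⟨V, hV, hV'⟩ := h
  refine ⟨V, hV, fun M M' h1 h2 _ _ => ?_⟩
  rw [← hV', bits_mem_lang]
  exact ⟨fun h => h.2.2, fun h => ⟨h1, h2, h⟩⟩

end Pool.Agent.TH658.Geo
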