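import Pool.Agent.TH658.Geo.Conn

/-!
# The linear space of a graph
-/

set_option autoImplicit false

namespace Pool.Agent.TH658.Geo

/-- Names of points (and of big lines). -/
abbrev Pt := ℕ × ℕ × ℕ

/-- Names of lines. -/
abbrev Ln := Pt ⊕ (Pt × Pt)

section Defs

variable (n : ℕ) (e : ℕ → ℕ → Bool)

/-- The points: `(v, v, i)` with `i ≤ 4` for the vertices `v`, `(u, w, 0)` for the (ordered) edges,
and three more points `(n, n, i)`. -/
def KK (x : Pt) : Prop :=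
  (x.1 = x.2.1 ∧ x.1 < n ∧ x.2.2 ≤ 4) ∨
    (x.1 ≠ x.2.1 ∧ x.1 < n ∧ x.2.1 < n ∧ e x.1 x.2.1 = true ∧ x.2.2 = 0) ∨
    (x.1 = n ∧ x.2.1 = n ∧ x.2.2 ≤ 2)

/-- The point `x` is on the big line `b`. The big lines are
`{(v, v, 0), (v, v, 1), (v, v, 2)}`, `{(v, v, 0), (v, v, 3), (v, v, 4)}` and, for the edges `u w`,
`{(u, u, 0), (w, w, 0), (u, w, 0), (w, u, 0)}`. -/
def bigI (x b : Pt) : Prop :=
  (b.1 = b.2.1 ∧ b.1 < n ∧ b.2.2 = 0 ∧ x.1 = b.1 ∧ x.2.1 = b.1 ∧ x.2.2 ≤ 2) ∨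
  (b.1 = b.2.1 ∧ b.1 < n ∧ b.2.2 = 1 ∧ x.1 = b.1 ∧ x.2.1 = b.1 ∧
    (x.2.2 = 0 ∨ (3 ≤ x.2.2 ∧ x.2.2 ≤ 4))) ∨
  (b.1 < b.2.1 ∧ b.2.1 < n ∧ b.2.2 = 0 ∧ e b.1 b.2.1 = true ∧ (x.1 = b.1 ∨ x.1 = b.2.1) ∧
    (x.2.1 = b.1 ∨ x.2.1 = b.2.1) ∧ x.2.2 = 0)

/-- The lexicographic order. -/
def ltP (x y : Pt) : Prop :=
  x.1 < y.1 ∨ (x.1 = y.1 ∧ (x.2.1 < y.2.1 ∨ (x.2.1 = y.2.1 ∧ x.2.2 < y.2.2)))

/-- Incidence: the big lines, and a line through every other pair of points. -/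
def II : Pt → Ln → Prop
  | x, Sum.inl b => bigI n e x b
  | x, Sum.inr (y, z) => (x = y ∨ x = z) ∧ KK n e y ∧ KK n e z ∧ ltP y z ∧
      ¬ ∃ b, bigI n e y b ∧ bigI n e z b

end Defs

section Props

variable {n : ℕ} {e : ℕ → ℕ → Bool} (he : ∀ u w, u < n → w < n → e u w = e w u)

include he in
theorem KK_of_bigI {x b : Pt} (h : bigI n e x b) : KK n e x := by
  obtain ⟨a, c, i⟩ := x
  obtain ⟨u, w, k⟩ := b
  simp only [bigI, KK] at h ⊢
  rcases h with h | h | ⟨h1, h2, h3, h4, h5, h6, h7⟩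
  · omega
  · omega
  · rcases h5 with rfl | rfl <;> rcases h6 with rfl | rfl
    · omega
    · exact Or.inr (Or.inl ⟨by omega, by omega, by omega, h4, h7⟩)
    · exact Or.inr (Or.inl ⟨by omega, by omega, by omega, by rw [he _ _ (by omega) (by omega)]; exact h4, h7⟩)
    · omega

include he in
theorem KK_of_II : ∀ (x : Pt) (l : Ln), II n e x l → KK n e x
  | x, Sum.inl b, h => KK_of_bigI he h
  | x, Sum.inr (y, z), ⟨h1, h2, h3, _⟩ => by
    rcases h1 with rfl | rfl <;> assumption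

theorem bigI_unique {x y b b' : Pt} (hxy : x ≠ y) (h1 : bigI n e x b) (h2 : bigI n e y b)
    (h3 : bigI n e x b') (h4 : bigI n e y b') : b = b' := by
  obtain ⟨a, c, i⟩ := x
  obtain ⟨a', c', i'⟩ := y
  obtain ⟨u, w, k⟩ := b
  obtain ⟨u', w', k'⟩ := b'
  simp only [bigI, ne_eq, Prod.mk.injEq] at *
  rcases h1 with h1 | h1 | h1 <;> rcases h2 with h2 | h2 | h2 <;> rcases h3 with h3 | h3 | h3 <;>
    rcases h4 with h4 | h4 | h4 <;> omega

theorem bigI_two {x b b' : Pt} (hb : b ≠ b') (h1 : bigI n e x b) (h2 : bigI n e x b') :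
    x.1 = x.2.1 ∧ x.2.2 = 0 ∧ x.1 < n := by
  obtain ⟨a, c, i⟩ := x
  obtain ⟨u, w, k⟩ := b
  obtain ⟨u', w', k'⟩ := b'
  simp only [bigI, ne_eq, Prod.mk.injEq] at *
  rcases h1 with h1 | h1 | h1 <;> rcases h2 with h2 | h2 | h2 <;> omega

theorem II_unique : ∀ (x y : Pt) (l m : Ln), x ≠ y → II n e x l → II n e y l → II n e x m →
    II n e y m → l = m
  | x, y, Sum.inl b, Sum.inl b', hxy, h1, h2, h3, h4 => by rw [bigI_unique hxy h1 h2 h3 h4]
  | x, y, Sum.inl b, Sum.inr (z, w), hxy, h1, h2, h3, h4 => by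
    exfalso
    obtain ⟨h3, _, _, _, h5⟩ := h3
    obtain ⟨h4, _, _, _, _⟩ := h4
    rcases h3 with rfl | rfl <;> rcases h4 with rfl | rfl
    · exact hxy rfl
    · exact h5 ⟨b, h1, h2⟩
    · exact h5 ⟨b, h2, h1⟩
    · exact hxy rfl
  | x, y, Sum.inr (z, w), Sum.inl b, hxy, h3, h4, h1, h2 => by
    exfalso
    obtain ⟨h3, _, _, _, h5⟩ := h3
    obtain ⟨h4, _, _, _, _⟩ := h4
    rcases h3 with rfl | rfl <;> rcases h4 with rfl | rfl
    · exact hxy rfl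
    · exact h5 ⟨b, h1, h2⟩
    · exact h5 ⟨b, h2, h1⟩
    · exact hxy rfl
  | x, y, Sum.inr (z, w), Sum.inr (z', w'), hxy, h1, h2, h3, h4 => by
    obtain ⟨h1, _, _, h5, _⟩ := h1
    obtain ⟨h2, _, _, _, _⟩ := h2
    obtain ⟨h3, _, _, h6, _⟩ := h3
    obtain ⟨h4, _, _, _, _⟩ := h4
    have hasym : ∀ a b : Pt, ltP a b → ltP b a → False := by
      intro a b h h'
      simp only [ltP] at h h'
      omega
    rcases h1 with rfl | rfl <;> rcases h2 with rfl | rfl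
    · exact absurd rfl hxy
    · rcases h3 with rfl | rfl <;> rcases h4 with rfl | rfl
      · exact absurd rfl hxy
      · rfl
      · exact (hasym _ _ h5 h6).elim
      · exact absurd rfl hxy
    · rcases h3 with rfl | rfl <;> rcases h4 with rfl | rfl
      · exact absurd rfl hxy
      · exact (hasym _ _ h5 h6).elim
      · rfl
      · exact absurd rfl hxy
    · exact absurd rfl hxy

theorem ltP_or {x y : Pt} (h : x ≠ y) : ltP x y ∨ ltP y x := by
  obtain ⟨a, c, i⟩ := x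
  obtain ⟨a', c', i'⟩ := y
  simp only [ltP, ne_eq, Prod.mk.injEq] at *
  omega

theorem II_exists (x y : Pt) (hx : KK n e x) (hy : KK n e y) (hxy : x ≠ y) :
    ∃ l, II n e x l ∧ II n e y l := by
  by_cases h : ∃ b, bigI n e x b ∧ bigI n e y b
  · obtain ⟨b, h1, h2⟩ := h
    exact ⟨Sum.inl b, h1, h2⟩
  · rcases ltP_or hxy with h1 | h1
    · exact ⟨Sum.inr (x, y), ⟨Or.inl rfl, hx, hy, h1, h⟩, ⟨Or.inr rfl, hx, hy, h1, h⟩⟩
    · have h' : ¬ ∃ b, bigI n e y b ∧ bigI n e x b := fun ⟨b, g1, g2⟩ => h ⟨b, g2, g1⟩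
      exact ⟨Sum.inr (y, x), ⟨Or.inr rfl, hy, hx, h1, h'⟩, ⟨Or.inl rfl, hy, hx, h1, h'⟩⟩

theorem bigI_three {x b : Pt} (h : bigI n e x b) : ∃ p q r, p ≠ q ∧ p ≠ r ∧ q ≠ r ∧
    bigI n e p b ∧ bigI n e q b ∧ bigI n e r b := by
  obtain ⟨u, w, k⟩ := b
  simp only [bigI] at h
  rcases h with ⟨h1, h2, h3, -⟩ | ⟨h1, h2, h3, -⟩ | ⟨h1, h2, h3, h4, -⟩
  · refine ⟨(u, u, 0), (u, u, 1), (u, u, 2), by simp, by simp, by simp, ?_, ?_, ?_⟩ <;>
      exact Or.inl ⟨h1, h2, h3, rfl, rfl, by simp⟩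
  · refine ⟨(u, u, 0), (u, u, 3), (u, u, 4), by simp, by simp, by simp, ?_, ?_, ?_⟩ <;>
      exact Or.inr (Or.inl ⟨h1, h2, h3, rfl, rfl, by simp⟩)
  · refine ⟨(u, u, 0), (w, w, 0), (u, w, 0), ?_, ?_, ?_, ?_, ?_, ?_⟩
    · simp; omega
    · simp; omega
    · simp; omega
    · exact Or.inr (Or.inr ⟨h1, h2, h3, h4, by simp⟩)
    · exact Or.inr (Or.inr ⟨h1, h2, h3, h4, by simp⟩)
    · exact Or.inr (Or.inr ⟨h1, h2, h3, h4, by simp⟩)

theorem ltP_ne {x y : Pt} (h : ltP x y) : x ≠ y := by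
  rintro rfl
  simp only [ltP] at h
  omega

theorem II_two : ∀ (x : Pt) (l : Ln), II n e x l → ∃ y, y ≠ x ∧ II n e y l
  | x, Sum.inl b, h => by
    obtain ⟨p, q, r, h1, h2, h3, h4, h5, h6⟩ := bigI_three h
    by_cases hp : p = x
    · exact ⟨q, hp ▸ h1.symm, h5⟩
    · exact ⟨p, hp, h4⟩
  | x, Sum.inr (y, z), ⟨h1, h2, h3, h4, h5⟩ => by
    have := ltP_ne h4
    rcases h1 with rfl | rfl
    · exact ⟨z, this.symm, Or.inr rfl, h2, h3, h4, h5⟩
    · exact ⟨y, this, Or.inl rfl, h2, h3, h4, h5⟩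

theorem not_bigI_extra (i : ℕ) (b : Pt) : ¬ bigI n e (n, n, i) b := by
  intro h
  simp only [bigI] at h
  omega

theorem KK_extra {i : ℕ} (hi : i ≤ 2) : KK n e (n, n, i) := Or.inr (Or.inr ⟨rfl, rfl, hi⟩)

theorem II_off : ∀ l : Ln, ∃ w, KK n e w ∧ ¬ II n e w l
  | Sum.inl b => ⟨(n, n, 0), KK_extra (by omega), not_bigI_extra 0 b⟩
  | Sum.inr (y, z) => by
    by_cases h0 : (n, n, 0) = y ∨ (n, n, 0) = z
    · by_cases h1 : (n, n, 1) = y ∨ (n, n, 1) = z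
      · refine ⟨(n, n, 2), KK_extra (by omega), fun h => ?_⟩
        have h2 := h.1
        obtain ⟨y1, y2, y3⟩ := y
        obtain ⟨z1, z2, z3⟩ := z
        simp only [Prod.mk.injEq] at h0 h1 h2
        omega
      · exact ⟨(n, n, 1), KK_extra (by omega), fun h => h1 h.1⟩
    · exact ⟨(n, n, 0), KK_extra (by omega), fun h => h0 h.1⟩

theorem KK_two (x : Pt) : ∃ y, KK n e y ∧ y ≠ x := by
  by_cases h : x = (n, n, 0)
  · refine ⟨(n, n, 1), KK_extra (by omega), ?_⟩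
    rw [h]
    simp
  · exact ⟨(n, n, 0), KK_extra (by omega), Ne.symm h⟩

/-- The geodetic graph of the graph with adjacency function `e`. -/
abbrev GG (n : ℕ) (e : ℕ → ℕ → Bool) : SimpleGraph (Vx (KK n e) (II n e)) :=
  linGraph (KK n e) (II n e)

include he in
theorem GG_geodetic : Geodetic (GG n e) ∧ ∀ x y, (GG n e).dist x y ≤ 5 := by
  obtain ⟨h1, h2⟩ := linGraph_geodetic (KK_of_II he) II_exists II_unique
    ⟨(n, n, 0), KK_extra (by omega)⟩
  exact ⟨h1, fun x y => (h2 x y).trans_le (Dl_le _ _ _ _)⟩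

include he in
theorem GG_twoConnected : TwoConnected (GG n e) :=
  linGraph_twoConnected (KK_of_II he) II_exists II_two II_off KK_two (GG_geodetic he).1.1

/-! ### Reconstruction -/

theorem big_inl {b : Pt} : Big (II n e) (Sum.inl b) ↔ ∃ x, bigI n e x b := by
  constructor
  · rintro ⟨x, y, z, h1, h2, h3, h4, h5, h6⟩
    exact ⟨x, h4⟩
  · rintro ⟨x, h⟩
    exact bigI_three h

theorem not_big_inr {y z : Pt} : ¬ Big (II n e) (Sum.inr (y, z)) := by
  rintro ⟨a, b, c, h1, h2, h3, ⟨h4, -⟩, ⟨h5, -⟩, ⟨h6, -⟩⟩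
  rcases h4 with rfl | rfl <;> rcases h5 with rfl | rfl <;> rcases h6 with rfl | rfl <;>
    simp_all

include he in
theorem isV_GG (a : Vx (KK n e) (II n e)) :
    IsV (GG n e) a ↔ ∃ v, v < n ∧ a.1 = ((v, v, 0), none) := by
  rw [isV_iff (KK_of_II he)]
  constructor
  · rintro ⟨h0, l, m, h1, h2, h3, h4, h5⟩
    obtain ⟨⟨x, o⟩, hx, hxo⟩ := a
    simp only at h0 h2 h3
    subst h0
    rcases l with b | ⟨y, z⟩
    · rcases m with b' | ⟨y, z⟩
      · obtain ⟨h6, h7, h8⟩ := bigI_two (fun e => h1 (by rw [e])) h2 h3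
        obtain ⟨x1, x2, x3⟩ := x
        simp only at h6 h7 h8
        subst h6 h7
        exact ⟨x1, h8, rfl⟩
      · exact absurd h5 not_big_inr
    · exact absurd h4 not_big_inr
  · rintro ⟨v, hv, h⟩
    rw [h]
    have h1 : bigI n e (v, v, 0) (v, v, 0) := Or.inl ⟨rfl, hv, rfl, rfl, rfl, by simp⟩
    have h2 : bigI n e (v, v, 0) (v, v, 1) := Or.inr (Or.inl ⟨rfl, hv, rfl, rfl, rfl, by simp⟩)
    exact ⟨rfl, Sum.inl (v, v, 0), Sum.inl (v, v, 1), by simp, h1, h2, big_inl.2 ⟨_, h1⟩,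
      big_inl.2 ⟨_, h2⟩⟩

theorem KK_vertex {v : ℕ} (hv : v < n) : KK n e (v, v, 0) := Or.inl ⟨rfl, hv, by simp⟩

include he in
theorem EE_GG {v w : ℕ} (hv : v < n) (hw : w < n) (hvw : v ≠ w) :
    EE (GG n e) (pv (KK_vertex hv)) (pv (KK_vertex hw)) ↔ e v w = true := by
  rw [EE_iff (KK_of_II he) _ _ (by simpa using hvw)]
  constructor
  · rintro ⟨l, h1, h2, h3⟩
    rcases l with ⟨b1, b2, b3⟩ | ⟨y, z⟩
    · change bigI n e _ _ at h1 h2
      simp only [bigI] at h1 h2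
      rcases h1 with h1 | h1 | ⟨h1, h4, h5, h6, h7, h8, h9⟩
      · omega
      · omega
      · rcases h2 with h2 | h2 | ⟨_, _, _, _, g7, g8, g9⟩
        · omega
        · omega
        · rcases h7 with rfl | rfl
          · rcases g7 with rfl | rfl
            · exact absurd rfl hvw
            · exact h6
          · rcases g7 with rfl | rfl
            · rw [he _ _ hv hw]; exact h6
            · exact absurd rfl hvw
    · exact absurd h3 not_big_inr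
  · intro h
    rcases Nat.lt_or_gt_of_ne hvw with h1 | h1
    · have g1 : bigI n e (v, v, 0) (v, w, 0) :=
        Or.inr (Or.inr ⟨h1, hw, rfl, h, by simp⟩)
      have g2 : bigI n e (w, w, 0) (v, w, 0) :=
        Or.inr (Or.inr ⟨h1, hw, rfl, h, by simp⟩)
      exact ⟨Sum.inl (v, w, 0), g1, g2, big_inl.2 ⟨_, g1⟩⟩
    · rw [he _ _ hv hw] at h
      have g1 : bigI n e (v, v, 0) (w, v, 0) :=
        Or.inr (Or.inr ⟨h1, hv, rfl, h, by simp⟩)
      have g2 : bigI n e (w, w, 0) (w, v, 0) :=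
        Or.inr (Or.inr ⟨h1, hv, rfl, h, by simp⟩)
      exact ⟨Sum.inl (w, v, 0), g1, g2, big_inl.2 ⟨_, g1⟩⟩

end Props

/-- The graph on `0, …, n - 1` in which two distinct vertices are adjacent if both entries of `e`
are true. -/
def gr (n : ℕ) (e : ℕ → ℕ → Bool) : SimpleGraph (Fin n) where
  Adj i j := i ≠ j ∧ e i j = true ∧ e j i = true
  symm := ⟨fun _ _ h => ⟨h.1.symm, h.2.2, h.2.1⟩⟩
  loopless := ⟨fun _ h => h.1 rfl⟩

theorem gr_adj {n : ℕ} {e : ℕ → ℕ → Bool} {i j : Fin n} :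
    (gr n e).Adj i j ↔ i ≠ j ∧ e i j = true ∧ e j i = true := Iff.rfl

section Main

variable {n : ℕ} {e : ℕ → ℕ → Bool} (he : ∀ u w, u < n → w < n → e u w = e w u)
  {n' : ℕ} {e' : ℕ → ℕ → Bool} (he' : ∀ u w, u < n' → w < n' → e' u w = e' w u)

/-- extension of a map of vertices -/
def ext (σ : Fin n → Fin n') (v : ℕ) : ℕ := if h : v < n then σ ⟨v, h⟩ else v

/-- the map of points -/
def mp (σ : Fin n → Fin n') (x : Pt) : Pt := (ext σ x.1, ext σ x.2.1, x.2.2)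

theorem ext_lt {σ : Fin n → Fin n'} {v : ℕ} (h : v < n) : ext σ v < n' := by
  unfold ext
  rw [dif_pos h]
  exact (σ ⟨v, h⟩).2

theorem ext_n (hn : n = n') {σ : Fin n → Fin n'} : ext σ n = n' := by
  unfold ext
  rw [dif_neg (by omega), hn]

include he he' in
theorem ext_e {σ : gr n e ≃g gr n' e'} {u w : ℕ} (hu : u < n) (hw : w < n) (huw : u ≠ w) :
    e' (ext σ u) (ext σ w) = e u w := by
  have h := σ.map_adj_iff (v := ⟨u, hu⟩) (w := ⟨w, hw⟩)
  unfold ext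
  rw [dif_pos hu, dif_pos hw]
  have h1 : (⟨u, hu⟩ : Fin n) ≠ ⟨w, hw⟩ := by simpa using huw
  have h2 : σ ⟨u, hu⟩ ≠ σ ⟨w, hw⟩ := fun e => h1 (σ.injective e)
  rw [gr_adj, gr_adj] at h
  simp only [ne_eq, h1, h2, not_false_eq_true, true_and] at h
  rw [he w u hw hu, he' (σ ⟨w, hw⟩) (σ ⟨u, hu⟩) (Fin.is_lt _) (Fin.is_lt _)] at h
  simp only [and_self] at h
  exact Bool.eq_iff_iff.2 h

theorem ext_inj {σ : gr n e ≃g gr n' e'} {u w : ℕ} (hu : u < n) (hw : w < n)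
    (h : ext σ u = ext σ w) : u = w := by
  unfold ext at h
  rw [dif_pos hu, dif_pos hw] at h
  have := σ.injective (Fin.ext h)
  simpa using this

include he he' in
theorem mp_KK (hn : n = n') (σ : gr n e ≃g gr n' e') {x : Pt} (hx : KK n e x) :
    KK n' e' (mp σ x) := by
  obtain ⟨a, c, i⟩ := x
  simp only [KK, mp] at hx ⊢
  rcases hx with ⟨rfl, h2, h3⟩ | ⟨h1, h2, h3, h4, h5⟩ | ⟨rfl, rfl, h3⟩
  · exact Or.inl ⟨rfl, ext_lt h2, h3⟩
  · refine Or.inr (Or.inl ⟨fun h => h1 (ext_inj h2 h3 h), ext_lt h2, ext_lt h3, ?_, h5⟩)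
    rw [ext_e he he' h2 h3 h1]
    exact h4
  · rw [ext_n hn]
    exact Or.inr (Or.inr ⟨rfl, rfl, h3⟩)

theorem mp_mp (hn : n = n') (σ : gr n e ≃g gr n' e') {x : Pt} (hx : KK n e x) :
    mp σ.symm (mp σ x) = x := by
  have h1 : ∀ v, v < n → ext σ.symm (ext σ v) = v := by
    intro v hv
    unfold ext
    rw [dif_pos hv, dif_pos (Fin.is_lt _)]
    simp
  obtain ⟨a, c, i⟩ := x
  simp only [KK] at hx
  simp only [mp]
  rcases hx with ⟨rfl, h2, h3⟩ | ⟨h1', h2, h3, h4, h5⟩ | ⟨rfl, rfl, h3⟩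
  · rw [h1 _ h2]
  · rw [h1 _ h2, h1 _ h3]
  · rw [ext_n hn, ext_n hn.symm]

include he he' in
theorem mp_bigI (σ : gr n e ≃g gr n' e') {b : Pt} :
    ∃ b' : Pt, ∀ x, bigI n e x b → bigI n' e' (mp σ x) b' := by
  obtain ⟨u, w, k⟩ := b
  by_cases huw : u = w
  · subst huw
    refine ⟨(ext σ u, ext σ u, k), ?_⟩
    rintro ⟨a, c, i⟩ h
    simp only [bigI, mp] at h ⊢
    rcases h with ⟨h1, h2, h3, rfl, rfl, h6⟩ | ⟨h1, h2, h3, rfl, rfl, h6⟩ | h
    · exact Or.inl ⟨trivial, ext_lt h2, h3, rfl, rfl, h6⟩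
    · exact Or.inr (Or.inl ⟨trivial, ext_lt h2, h3, rfl, rfl, h6⟩)
    · omega
  · rcases Nat.lt_or_ge (ext σ u) (ext σ w) with hlt | hge
    · refine ⟨(ext σ u, ext σ w, 0), ?_⟩
      rintro ⟨a, c, i⟩ h
      simp only [bigI, mp] at h ⊢
      rcases h with h | h | ⟨h1, h2, h3, h4, h5, h6, h7⟩
      · omega
      · omega
      · refine Or.inr (Or.inr ⟨hlt, ext_lt h2, trivial, ?_, ?_, ?_, h7⟩)
        · rw [ext_e he he' (by omega) h2 huw]; exact h4
        · rcases h5 with rfl | rfl <;> simp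
        · rcases h6 with rfl | rfl <;> simp
    · refine ⟨(ext σ w, ext σ u, 0), ?_⟩
      rintro ⟨a, c, i⟩ h
      simp only [bigI, mp] at h ⊢
      rcases h with h | h | ⟨h1, h2, h3, h4, h5, h6, h7⟩
      · omega
      · omega
      · have hu : u < n := by omega
        have hne : ext σ w ≠ ext σ u := fun h => huw (ext_inj h2 hu h).symm
        refine Or.inr (Or.inr ⟨by omega, ext_lt hu, trivial, ?_, ?_, ?_, h7⟩)
        · rw [ext_e he he' h2 hu (Ne.symm huw), he _ _ h2 hu]; exact h4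
        · rcases h5 with rfl | rfl <;> simp
        · rcases h6 with rfl | rfl <;> simp

include he he' in
theorem mp_col (hn : n = n') (σ : gr n e ≃g gr n' e') {x y z : Pt}
    (h : Col (II n e) x y z) : Col (II n' e') (mp σ x) (mp σ y) (mp σ z) := by
  obtain ⟨l, h1, h2, h3⟩ := h
  rcases l with b | ⟨p, q⟩
  · obtain ⟨b', hb'⟩ := mp_bigI he he' σ (b := b)
    exact ⟨Sum.inl b', hb' _ h1, hb' _ h2, hb' _ h3⟩
  · obtain ⟨h1, h4, h5, h6, -⟩ := h1
    obtain ⟨h2, -⟩ := h2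
    obtain ⟨h3, -⟩ := h3
    have hne : mp σ p ≠ mp σ q := by
      intro h
      apply ltP_ne h6
      rw [← mp_mp hn σ h4, ← mp_mp hn σ h5, h]
    obtain ⟨l, h7, h8⟩ := II_exists _ _ (mp_KK he he' hn σ h4) (mp_KK he he' hn σ h5) hne
    refine ⟨l, ?_, ?_, ?_⟩
    · rcases h1 with rfl | rfl <;> assumption
    · rcases h2 with rfl | rfl <;> assumption
    · rcases h3 with rfl | rfl <;> assumption

include he he' in
theorem GG_iso_of_iso (h : Nonempty (gr n e ≃g gr n' e')) : Nonempty (GG n e ≃g GG n' e') := by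
  obtain ⟨σ⟩ := h
  have hn : n = n' := by simpa using Fintype.card_congr σ.toEquiv
  refine linGraph_iso II_two II_two II_unique II_unique (KK_of_II he) (KK_of_II he')
    (mp σ) (mp σ.symm) (fun x hx => mp_KK he he' hn σ hx)
    (fun x hx => mp_KK he' he hn.symm σ.symm hx) (fun x hx => mp_mp hn σ hx)
    (fun x hx => mp_mp hn.symm σ.symm hx) ?_
  intro x y z hx hy hz
  refine ⟨mp_col he he' hn σ, fun h => ?_⟩
  have := mp_col he' he hn.symm σ.symm h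
  rwa [mp_mp hn σ hx, mp_mp hn σ hy, mp_mp hn σ hz] at this

include he he' in
theorem iso_of_GG_iso (h : Nonempty (GG n e ≃g GG n' e')) : Nonempty (gr n e ≃g gr n' e') := by
  obtain ⟨φ⟩ := h
  have h1 : ∀ v : Fin n, ∃ v' : Fin n', φ (pv (KK_vertex v.2)) = pv (KK_vertex v'.2) := by
    intro v
    have h2 : IsV (GG n e) (pv (KK_vertex v.2)) := (isV_GG he _).2 ⟨v, v.2, rfl⟩
    obtain ⟨v', h3, h4⟩ := (isV_GG he' _).1 ((isV_iso φ _).2 h2)
    exact ⟨⟨v', h3⟩, Subtype.ext h4⟩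
  have h1' : ∀ v' : Fin n', ∃ v : Fin n, φ.symm (pv (KK_vertex v'.2)) = pv (KK_vertex v.2) := by
    intro v
    have h2 : IsV (GG n' e') (pv (KK_vertex v.2)) := (isV_GG he' _).2 ⟨v, v.2, rfl⟩
    obtain ⟨v', h3, h4⟩ := (isV_GG he _).1 ((isV_iso φ.symm _).2 h2)
    exact ⟨⟨v', h3⟩, Subtype.ext h4⟩
  choose τ hτ using h1
  choose τ' hτ' using h1'
  have hpv : ∀ v w : Fin n, (pv (KK_vertex v.2) : Vx (KK n e) (II n e)) = pv (KK_vertex w.2) →
      v = w := by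
    intro v w h
    have := congrArg (fun q => q.1.1.1) h
    exact Fin.ext this
  have hpv' : ∀ v w : Fin n', (pv (KK_vertex v.2) : Vx (KK n' e') (II n' e')) =
      pv (KK_vertex w.2) → v = w := by
    intro v w h
    have := congrArg (fun q => q.1.1.1) h
    exact Fin.ext this
  refine ⟨⟨⟨τ, τ', ?_, ?_⟩, ?_⟩⟩
  · intro v
    apply hpv
    rw [← hτ', ← hτ]
    simp
  · intro v
    apply hpv'
    rw [← hτ, ← hτ']
    simp
  · intro v w
    change (gr n' e').Adj (τ v) (τ w) ↔ (gr n e).Adj v w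
    by_cases hvw : v = w
    · subst hvw
      simp
    · have h2 : τ v ≠ τ w := by
        intro h
        apply hvw
        apply hpv
        apply φ.injective
        rw [hτ, hτ, h]
      have h3 := EE_GG he v.2 w.2 (fun h => hvw (Fin.ext h))
      have h4 := EE_GG he' (τ v).2 (τ w).2 (fun h => h2 (Fin.ext h))
      rw [← hτ, ← hτ, EE_iso, h3] at h4
      rw [gr_adj, gr_adj]
      simp only [ne_eq, hvw, h2, not_false_eq_true, true_and]
      rw [he w v w.2 v.2, he' (τ w) (τ v) (τ w).2 (τ v).2, and_self, and_self]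
      exact h4.symm

end Main

end Pool.Agent.TH658.Geo
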