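import Pool.Agent.TH658.Geo.Code

/-!
# Polynomial time of the reduction
-/

set_option autoImplicit false

namespace Pool.Agent.TH658.Geo

open Pool.Agent.NPC

section

variable {α : Type} [TEnc α]

theorem poly_ent {M : α → Mat} {u w : α → ℕ} (hM : Poly M) (hu : Poly u) (hw : Poly w) :
    Poly (fun a => ent (M a) (u a) (w a)) :=
  NPC.Poly.getD (NPC.Poly.getD hM hu (NPC.Poly.const [])) hw (NPC.Poly.const false)

theorem poly_dedup {β : Type} [TEnc β] [DecidableEq β] {l : α → List β} (hl : Poly l) :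
    Poly (fun a => (l a).dedup) := by
  obtain ⟨r, hr⟩ := hl.sz_le
  have hdd : ∀ l : List β, l.foldr (fun b s => bif decide (b ∈ s) then s else b :: s) [] =
      l.dedup := by
    intro l
    induction l with
    | nil => rfl
    | cons b l ih =>
      rw [List.foldr_cons, ih]
      by_cases hb : b ∈ l.dedup
      · rw [List.dedup_cons_of_mem' hb]
        simp [hb]
      · rw [List.dedup_cons_of_notMem' hb]
        simp [hb]
  have hsz : ∀ l : List β, sz l.dedup ≤ sz l := by
    intro l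
    induction l with
    | nil => exact le_rfl
    | cons b l ih =>
      by_cases hb : b ∈ l.dedup
      · rw [List.dedup_cons_of_mem' hb]
        simp
        omega
      · rw [List.dedup_cons_of_notMem' hb]
        simp
        omega
  refine (NPC.Poly.foldr (s := fun _ => ([] : List β))
    (F := fun _ b s => bif decide (b ∈ s) then s else b :: s) hl (NPC.Poly.const _)
    (NPC.Poly.cond (NPC.Poly.decide_mem (NPC.Poly.fst (NPC.Poly.snd NPC.Poly.id)) (NPC.Poly.snd (NPC.Poly.snd NPC.Poly.id)))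
      (NPC.Poly.snd (NPC.Poly.snd NPC.Poly.id))
      (NPC.Poly.cons (NPC.Poly.fst (NPC.Poly.snd NPC.Poly.id)) (NPC.Poly.snd (NPC.Poly.snd NPC.Poly.id)))) r ?_).congr
      fun a => ?_
  · intro a k _
    rw [hdd]
    exact (hsz _).trans ((NPC.Poly.sz_drop_le _ _).trans (hr a))
  · exact hdd (l a)

theorem poly_bigI {M : α → Mat} {x b : α → Pt} (hM : Poly M) (hx : Poly x) (hb : Poly b) :
    Poly (fun a => decide (bigI (M a).length (ent (M a)) (x a) (b a))) := by
  have n := NPC.Poly.length hM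
  have x1 := NPC.Poly.fst hx
  have x2 := NPC.Poly.fst (NPC.Poly.snd hx)
  have x3 := NPC.Poly.snd (NPC.Poly.snd hx)
  have b1 := NPC.Poly.fst hb
  have b2 := NPC.Poly.fst (NPC.Poly.snd hb)
  have b3 := NPC.Poly.snd (NPC.Poly.snd hb)
  have e := poly_ent hM b1 b2
  refine (NPC.Poly.decide_or (NPC.Poly.decide_and (NPC.Poly.decide_eq b1 b2) (NPC.Poly.decide_and
    (NPC.Poly.decide_lt b1 n) (NPC.Poly.decide_and (NPC.Poly.decide_eq b3 (NPC.Poly.const 0))
    (NPC.Poly.decide_and (NPC.Poly.decide_eq x1 b1) (NPC.Poly.decide_and (NPC.Poly.decide_eq x2 b1)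
    (NPC.Poly.decide_le x3 (NPC.Poly.const 2)))))))
    (NPC.Poly.decide_or (NPC.Poly.decide_and (NPC.Poly.decide_eq b1 b2) (NPC.Poly.decide_and
    (NPC.Poly.decide_lt b1 n) (NPC.Poly.decide_and (NPC.Poly.decide_eq b3 (NPC.Poly.const 1))
    (NPC.Poly.decide_and (NPC.Poly.decide_eq x1 b1) (NPC.Poly.decide_and (NPC.Poly.decide_eq x2 b1)
    (NPC.Poly.decide_or (NPC.Poly.decide_eq x3 (NPC.Poly.const 0)) (NPC.Poly.decide_and
      (NPC.Poly.decide_le (NPC.Poly.const 3) x3) (NPC.Poly.decide_le x3 (NPC.Poly.const 4)))))))))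
    (NPC.Poly.decide_and (NPC.Poly.decide_lt b1 b2) (NPC.Poly.decide_and (NPC.Poly.decide_lt b2 n)
    (NPC.Poly.decide_and (NPC.Poly.decide_eq b3 (NPC.Poly.const 0)) (NPC.Poly.decide_and
    (NPC.Poly.decide_eq e (NPC.Poly.const true)) (NPC.Poly.decide_and (NPC.Poly.decide_or (NPC.Poly.decide_eq x1 b1)
    (NPC.Poly.decide_eq x1 b2)) (NPC.Poly.decide_and (NPC.Poly.decide_or (NPC.Poly.decide_eq x2 b1)
    (NPC.Poly.decide_eq x2 b2)) (NPC.Poly.decide_eq x3 (NPC.Poly.const 0)))))))))).congr fun a => ?_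
  exact decide_eq_decide.2 Iff.rfl

theorem poly_ltP {x y : α → Pt} (hx : Poly x) (hy : Poly y) :
    Poly (fun a => decide (ltP (x a) (y a))) := by
  have x1 := NPC.Poly.fst hx
  have x2 := NPC.Poly.fst (NPC.Poly.snd hx)
  have x3 := NPC.Poly.snd (NPC.Poly.snd hx)
  have b1 := NPC.Poly.fst hy
  have b2 := NPC.Poly.fst (NPC.Poly.snd hy)
  have b3 := NPC.Poly.snd (NPC.Poly.snd hy)
  refine (NPC.Poly.decide_or (NPC.Poly.decide_lt x1 b1) (NPC.Poly.decide_and (NPC.Poly.decide_eq x1 b1)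
    (NPC.Poly.decide_or (NPC.Poly.decide_lt x2 b2) (NPC.Poly.decide_and (NPC.Poly.decide_eq x2 b2)
    (NPC.Poly.decide_lt x3 b3))))).congr fun a => ?_
  exact decide_eq_decide.2 Iff.rfl

theorem poly_adjR {x y : α → Pt × Option Ln} (hx : Poly x) (hy : Poly y) :
    Poly (fun a => decide (adjR (x a) (y a))) := by
  have x1 := NPC.Poly.fst hx
  have x2 := NPC.Poly.snd hx
  have y1 := NPC.Poly.fst hy
  have y2 := NPC.Poly.snd hy
  have hno : Poly (fun _ : α => (none : Option Ln)) := NPC.Poly.const _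
  refine (NPC.Poly.decide_or (NPC.Poly.decide_and (NPC.Poly.decide_eq x1 y1) (NPC.Poly.decide_and
    (NPC.Poly.decide_not (NPC.Poly.decide_eq x2 y2)) (NPC.Poly.decide_or (NPC.Poly.decide_eq x2 hno)
    (NPC.Poly.decide_eq y2 hno)))) (NPC.Poly.decide_and (NPC.Poly.decide_not (NPC.Poly.decide_eq x1 y1))
    (NPC.Poly.decide_and (NPC.Poly.decide_eq x2 y2) (NPC.Poly.decide_not (NPC.Poly.decide_eq x2 hno))))).congr
    fun a => ?_
  exact decide_eq_decide.2 Iff.rfl

theorem poly_pt {u w : α → ℕ} (hu : Poly u) (hw : Poly w) (i : ℕ) :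
    Poly (fun a => ((u a, w a, i) : Pt)) := NPC.Poly.pair hu (NPC.Poly.pair hw (NPC.Poly.const i))

theorem poly_pts {M : α → Mat} (hM : Poly M) : Poly (fun a => pts (M a)) := by
  have hr : Poly (fun a => List.range (M a).length) := NPC.Poly.range_length hM
  refine NPC.Poly.append (NPC.Poly.flatMap (F := fun a u => (List.range (M a).length).flatMap fun w =>
    if u = w then [(u, u, 0), (u, u, 1), (u, u, 2), (u, u, 3), (u, u, 4)]
    else if ent (M a) u w = true then [(u, w, 0)] else []) hr ?_) ?_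
  · refine NPC.Poly.flatMap (F := fun (p : α × ℕ) w =>
      if p.2 = w then [(p.2, p.2, 0), (p.2, p.2, 1), (p.2, p.2, 2), (p.2, p.2, 3), (p.2, p.2, 4)]
      else if ent (M p.1) p.2 w = true then [(p.2, w, 0)] else [])
      (hr.comp (NPC.Poly.fst NPC.Poly.id)) ?_
    have hu : Poly (fun q : (α × ℕ) × ℕ => q.1.2) := NPC.Poly.snd (NPC.Poly.fst NPC.Poly.id)
    have hw : Poly (fun q : (α × ℕ) × ℕ => q.2) := NPC.Poly.snd NPC.Poly.id
    have hMM : Poly (fun q : (α × ℕ) × ℕ => M q.1.1) := hM.comp (NPC.Poly.fst (NPC.Poly.fst NPC.Poly.id))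
    have hnil : Poly (fun _ : (α × ℕ) × ℕ => ([] : List Pt)) := NPC.Poly.const _
    refine NPC.Poly.ite (NPC.Poly.decide_eq hu hw) ?_ (NPC.Poly.ite
      (NPC.Poly.decide_eq (poly_ent hMM hu hw) (NPC.Poly.const true)) ?_ hnil)
    · exact NPC.Poly.cons (poly_pt hu hu 0) (NPC.Poly.cons (poly_pt hu hu 1) (NPC.Poly.cons (poly_pt hu hu 2)
        (NPC.Poly.cons (poly_pt hu hu 3) (NPC.Poly.cons (poly_pt hu hu 4) hnil))))
    · exact NPC.Poly.cons (poly_pt hu hw 0) hnil
  · have n := NPC.Poly.length hM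
    exact NPC.Poly.cons (poly_pt n n 0) (NPC.Poly.cons (poly_pt n n 1) (NPC.Poly.cons (poly_pt n n 2)
      (NPC.Poly.const [])))

theorem poly_bigs {M : α → Mat} (hM : Poly M) : Poly (fun a => bigs (M a)) := by
  have hr : Poly (fun a => List.range (M a).length) := NPC.Poly.range_length hM
  refine NPC.Poly.flatMap (F := fun a u => (List.range (M a).length).flatMap fun w =>
    [(u, w, 0), (u, w, 1)]) hr ?_
  refine NPC.Poly.flatMap (F := fun (p : α × ℕ) w => [(p.2, w, 0), (p.2, w, 1)])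
      (hr.comp (NPC.Poly.fst NPC.Poly.id)) ?_
  have hu : Poly (fun q : (α × ℕ) × ℕ => q.1.2) := NPC.Poly.snd (NPC.Poly.fst NPC.Poly.id)
  have hw : Poly (fun q : (α × ℕ) × ℕ => q.2) := NPC.Poly.snd NPC.Poly.id
  exact NPC.Poly.cons (poly_pt hu hw 0) (NPC.Poly.cons (poly_pt hu hw 1) (NPC.Poly.const []))

theorem poly_bigB {M : α → Mat} {y z : α → Pt} (hM : Poly M) (hy : Poly y) (hz : Poly z) :
    Poly (fun a => bigB (M a) (y a) (z a)) := by
  refine NPC.Poly.any (p := fun a b => decide (bigI (M a).length (ent (M a)) (y a) b ∧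
    bigI (M a).length (ent (M a)) (z a) b)) (poly_bigs hM) ?_
  have h1 : Poly (fun q : α × Pt => q.1) := NPC.Poly.fst NPC.Poly.id
  exact NPC.Poly.decide_and (poly_bigI (hM.comp h1) (hy.comp h1) (NPC.Poly.snd NPC.Poly.id))
    (poly_bigI (hM.comp h1) (hz.comp h1) (NPC.Poly.snd NPC.Poly.id))

theorem poly_smalls {M : α → Mat} (hM : Poly M) : Poly (fun a => smalls (M a)) := by
  refine NPC.Poly.flatMap (F := fun a y => (pts (M a)).flatMap fun z =>
    if ltP y z ∧ bigB (M a) y z = false then [(y, z)] else []) (poly_pts hM) ?_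
  refine NPC.Poly.flatMap (F := fun (p : α × Pt) z =>
    if ltP p.2 z ∧ bigB (M p.1) p.2 z = false then [(p.2, z)] else [])
      ((poly_pts hM).comp (NPC.Poly.fst NPC.Poly.id)) ?_
  have hy : Poly (fun q : (α × Pt) × Pt => q.1.2) := NPC.Poly.snd (NPC.Poly.fst NPC.Poly.id)
  have hz : Poly (fun q : (α × Pt) × Pt => q.2) := NPC.Poly.snd NPC.Poly.id
  have hMM : Poly (fun q : (α × Pt) × Pt => M q.1.1) := hM.comp (NPC.Poly.fst (NPC.Poly.fst NPC.Poly.id))
  exact NPC.Poly.ite (NPC.Poly.decide_and (poly_ltP hy hz)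
    (NPC.Poly.decide_eq (poly_bigB hMM hy hz) (NPC.Poly.const false)))
    (NPC.Poly.cons (NPC.Poly.pair hy hz) (NPC.Poly.const [])) (NPC.Poly.const [])

theorem poly_vs {M : α → Mat} (hM : Poly M) : Poly (fun a => vs (M a)) := by
  refine poly_dedup (NPC.Poly.append ?_ (NPC.Poly.append ?_ ?_))
  · exact NPC.Poly.map (F := fun _ (x : Pt) => ((x, none) : Pt × Option Ln)) (poly_pts hM)
      (NPC.Poly.pair (NPC.Poly.snd NPC.Poly.id) (NPC.Poly.const _))
  · refine NPC.Poly.flatMap (F := fun a (b : Pt) => (pts (M a)).flatMap fun x =>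
      if bigI (M a).length (ent (M a)) x b then [((x, some (Sum.inl b)) : Pt × Option Ln)] else [])
      (poly_bigs hM) ?_
    refine NPC.Poly.flatMap (F := fun (p : α × Pt) x =>
      if bigI (M p.1).length (ent (M p.1)) x p.2 then [((x, some (Sum.inl p.2)) : Pt × Option Ln)]
      else []) ((poly_pts hM).comp (NPC.Poly.fst NPC.Poly.id)) ?_
    have hb : Poly (fun q : (α × Pt) × Pt => q.1.2) := NPC.Poly.snd (NPC.Poly.fst NPC.Poly.id)
    have hx : Poly (fun q : (α × Pt) × Pt => q.2) := NPC.Poly.snd NPC.Poly.id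
    have hMM : Poly (fun q : (α × Pt) × Pt => M q.1.1) := hM.comp (NPC.Poly.fst (NPC.Poly.fst NPC.Poly.id))
    exact NPC.Poly.ite (poly_bigI hMM hx hb) (NPC.Poly.cons (NPC.Poly.pair hx (NPC.Poly.some (NPC.Poly.inl hb)))
      (NPC.Poly.const [])) (NPC.Poly.const [])
  · refine NPC.Poly.flatMap (F := fun _ (q : Pt × Pt) =>
      [((q.1, some (Sum.inr q)) : Pt × Option Ln), (q.2, some (Sum.inr q))]) (poly_smalls hM) ?_
    have hq : Poly (fun q : α × (Pt × Pt) => q.2) := NPC.Poly.snd NPC.Poly.id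
    exact NPC.Poly.cons (NPC.Poly.pair (NPC.Poly.fst hq) (NPC.Poly.some (NPC.Poly.inr hq)))
      (NPC.Poly.cons (NPC.Poly.pair (NPC.Poly.snd hq) (NPC.Poly.some (NPC.Poly.inr hq))) (NPC.Poly.const []))

theorem poly_R {M : α → Mat} (hM : Poly M) : Poly (fun a => R (M a)) := by
  refine NPC.Poly.map (F := fun a x => (vs (M a)).map fun y => decide (adjR x y)) (poly_vs hM) ?_
  exact NPC.Poly.map (F := fun (p : α × (Pt × Option Ln)) y => decide (adjR p.2 y))
    ((poly_vs hM).comp (NPC.Poly.fst NPC.Poly.id)) (poly_adjR (NPC.Poly.snd (NPC.Poly.fst NPC.Poly.id))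
    (NPC.Poly.snd NPC.Poly.id))

instance (M : Mat) : Decidable (IsAdj M) := by unfold IsAdj; infer_instance

theorem poly_isAdj {M : α → Mat} (hM : Poly M) : Poly (fun a => decide (IsAdj (M a))) := by
  have hr : Poly (fun a => List.range (M a).length) := NPC.Poly.range_length hM
  have h1 : Poly (fun a => (M a).all fun r => decide (r.length = (M a).length)) :=
    NPC.Poly.all (p := fun a r => decide (r.length = (M a).length)) hM
      (NPC.Poly.decide_eq (NPC.Poly.length (NPC.Poly.snd NPC.Poly.id)) (NPC.Poly.length (hM.comp (NPC.Poly.fst NPC.Poly.id))))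
  have h2 : Poly (fun a => (List.range (M a).length).all fun u =>
      (List.range (M a).length).all fun w => decide (ent (M a) u w = ent (M a) w u)) := by
    refine NPC.Poly.all (p := fun a u => (List.range (M a).length).all fun w =>
      decide (ent (M a) u w = ent (M a) w u)) hr ?_
    refine NPC.Poly.all (p := fun (p : α × ℕ) w => decide (ent (M p.1) p.2 w = ent (M p.1) w p.2))
      (hr.comp (NPC.Poly.fst NPC.Poly.id)) ?_
    have hu : Poly (fun q : (α × ℕ) × ℕ => q.1.2) := NPC.Poly.snd (NPC.Poly.fst NPC.Poly.id)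
    have hw : Poly (fun q : (α × ℕ) × ℕ => q.2) := NPC.Poly.snd NPC.Poly.id
    have hMM : Poly (fun q : (α × ℕ) × ℕ => M q.1.1) := hM.comp (NPC.Poly.fst (NPC.Poly.fst NPC.Poly.id))
    exact NPC.Poly.decide_eq (poly_ent hMM hu hw) (poly_ent hMM hw hu)
  have h3 : Poly (fun a => (List.range (M a).length).all fun u =>
      decide (ent (M a) u u = false)) := by
    refine NPC.Poly.all (p := fun a u => decide (ent (M a) u u = false)) hr ?_
    exact NPC.Poly.decide_eq (poly_ent (hM.comp (NPC.Poly.fst NPC.Poly.id)) (NPC.Poly.snd NPC.Poly.id)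
      (NPC.Poly.snd NPC.Poly.id)) (NPC.Poly.const false)
  refine (NPC.Poly.and h1 (NPC.Poly.and h2 h3)).congr fun a => ?_
  rw [Bool.eq_iff_iff, decide_eq_true_eq]
  simp only [IsAdj, Bool.and_eq_true, List.all_eq_true, decide_eq_true_eq]

end

end Pool.Agent.TH658.Geo
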